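import Pool.Agent.Lib.MP_203158_an.Nu

/-!
# MP_203158_an : singular projections in the bad rational directions
-/

namespace Pool.Agent.Lib.MP_203158_an

open MeasureTheory Set Metric Filter Topology
open scoped ENNReal NNReal

/-- The maps on the line. -/
noncomputable def ff (v : ℝ) (d : Dg) (s : ℝ) : ℝ := (s + dig v d) / 8

lemma measurable_ff (v : ℝ) (d : Dg) : Measurable (ff v d) := by
  unfold ff
  fun_prop

/-- The transfer operator on measures. -/
noncomputable def TM (v : ℝ) (ρ : Measure ℝ) : Measure ℝ :=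
  ∑ d : Dg, (1 / 16 : ℝ≥0∞) • ρ.map (ff v d)

lemma nu_TM (v : ℝ) : nu v = TM v (nu v) := by
  ext B hB
  have h1 : nu v B = mu (pr v ⁻¹' B) := by
    rw [nu, Measure.map_apply (measurable_pr v) hB]
  rw [h1, mu_ident ((measurable_pr v) hB), TM, Measure.finsetSum_apply]
  apply Finset.sum_congr rfl
  intro d _
  rw [Measure.smul_apply, Measure.map_apply (measurable_ff v d) hB, nu,
    Measure.map_apply (measurable_pr v) ((measurable_ff v d) hB), smul_eq_mul]
  congr 2
  ext x
  simp only [mem_preimage, ff, pr_psi]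

lemma TM_add (v : ℝ) (σ ρ : Measure ℝ) : TM v (σ + ρ) = TM v σ + TM v ρ := by
  unfold TM
  rw [← Finset.sum_add_distrib]
  apply Finset.sum_congr rfl
  intro d _
  rw [Measure.map_add _ _ (measurable_ff v d), smul_add]

lemma volume_preimage_affine (c : ℝ) (S : Set ℝ) (hS : volume S = 0) :
    volume ((fun t => 8 * t - c) ⁻¹' S) = 0 := by
  have h1 : (fun t => 8 * t - c) ⁻¹' S = (fun t => 8 * t) ⁻¹' ((fun t => t + (-c)) ⁻¹' S) := rfl
  rw [h1, Real.volume_preimage_mul_left (by norm_num), measure_preimage_add_right, hS, mul_zero]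

lemma volume_preimage_ff (v : ℝ) (d : Dg) (S : Set ℝ) (hS : volume S = 0) :
    volume (ff v d ⁻¹' S) = 0 := by
  have h1 : ff v d ⁻¹' S = (fun t => t + dig v d) ⁻¹' ((fun t => (1 / 8) * t) ⁻¹' S) := by
    ext t
    simp only [mem_preimage, ff]
    rw [show (t + dig v d) / 8 = 1 / 8 * (t + dig v d) by ring]
  rw [h1, measure_preimage_add_right, Real.volume_preimage_mul_left (by norm_num), hS, mul_zero]

lemma TM_singular (v : ℝ) {σ : Measure ℝ} (hσ : σ ⟂ₘ volume) : TM v σ ⟂ₘ volume := by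
  unfold TM
  refine Finset.sum_induction _ (fun m => m ⟂ₘ volume) (fun a b ha hb => ha.add_left hb)
    Measure.MutuallySingular.zero_left ?_
  intro d _
  apply Measure.MutuallySingular.smul
  obtain ⟨N, hN, hN1, hN2⟩ := hσ
  have hg : Measurable (fun t : ℝ => 8 * t - dig v d) := by fun_prop
  refine ⟨(fun t => 8 * t - dig v d) ⁻¹' N, hg hN, ?_, ?_⟩
  · rw [Measure.map_apply (measurable_ff v d) (hg hN)]
    have : ff v d ⁻¹' ((fun t => 8 * t - dig v d) ⁻¹' N) = N := by
      ext s
      simp only [mem_preimage, ff]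
      rw [show 8 * ((s + dig v d) / 8) - dig v d = s by ring]
    rw [this, hN1]
  · rw [← preimage_compl]
    exact volume_preimage_affine _ _ hN2

lemma TM_ac (v : ℝ) {ρ : Measure ℝ} (hρ : ρ ≪ volume) : TM v ρ ≪ volume := by
  unfold TM
  refine Finset.sum_induction _ (fun m => m ≪ volume) (fun a b ha hb => ?_)
    (Measure.AbsolutelyContinuous.zero _) ?_
  · intro s hs
    rw [Measure.add_apply, ha hs, hb hs, add_zero]
  · intro d _
    apply Measure.AbsolutelyContinuous.smul_left
    refine Measure.AbsolutelyContinuous.mk fun s hs hs0 => ?_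
    rw [Measure.map_apply (measurable_ff v d) hs]
    exact hρ (volume_preimage_ff v d s hs0)

/-- The Fourier transform of a measure. -/
noncomputable def phi (ρ : Measure ℝ) (ξ : ℝ) : ℂ :=
  ∫ s, Complex.exp (2 * Real.pi * ξ * s * Complex.I) ∂ρ

lemma norm_exp_one (ξ s : ℝ) : ‖Complex.exp (2 * Real.pi * ξ * s * Complex.I)‖ = 1 := by
  have h := Complex.norm_exp_ofReal_mul_I (2 * Real.pi * ξ * s)
  push_cast at h
  exact h

lemma continuous_exp_aux (ξ : ℝ) :
    Continuous (fun s : ℝ => Complex.exp (2 * Real.pi * ξ * s * Complex.I)) := by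
  fun_prop

lemma integrable_exp (ρ : Measure ℝ) [IsFiniteMeasure ρ] (ξ : ℝ) :
    Integrable (fun s : ℝ => Complex.exp (2 * Real.pi * ξ * s * Complex.I)) ρ := by
  refine Integrable.of_bound (continuous_exp_aux ξ).aestronglyMeasurable 1 ?_
  filter_upwards with s
  rw [norm_exp_one]

/-- The symbol. -/
noncomputable def symb (v ξ : ℝ) : ℂ :=
  ∑ d : Dg, (1 / 16 : ℂ) * Complex.exp (2 * Real.pi * ξ * (dig v d : ℝ) * Complex.I)

lemma phi_TM (v : ℝ) (ρ : Measure ℝ) [IsFiniteMeasure ρ] (ξ : ℝ) :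
    phi (TM v ρ) ξ = symb v (ξ / 8) * phi ρ (ξ / 8) := by
  unfold phi TM symb
  have hfin : ∀ d : Dg, IsFiniteMeasure ((1 / 16 : ℝ≥0∞) • ρ.map (ff v d)) := by
    intro d
    have : IsFiniteMeasure (ρ.map (ff v d)) := inferInstance
    refine ⟨?_⟩
    rw [Measure.smul_apply, smul_eq_mul]
    exact ENNReal.mul_lt_top (by simp) (measure_lt_top _ _)
  rw [integral_finsetSum_measure (fun d _ => by
    have := hfin d
    exact integrable_exp _ ξ), Finset.sum_mul]
  apply Finset.sum_congr rfl
  intro d _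
  rw [integral_smul_measure, integral_map (measurable_ff v d).aemeasurable
    (continuous_exp_aux ξ).aestronglyMeasurable]
  have h16 : (1 / 16 : ℝ≥0∞).toReal = 1 / 16 := by simp
  rw [h16, Complex.real_smul, ← integral_const_mul, ← integral_const_mul]
  apply integral_congr_ae
  filter_upwards with s
  rw [mul_assoc (1 / 16 : ℂ), ← Complex.exp_add]
  push_cast
  congr 2
  unfold ff
  push_cast
  ring

lemma phi_zero (ρ : Measure ℝ) [IsFiniteMeasure ρ] : phi ρ 0 = (ρ univ).toReal := by
  unfold phi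
  simp [Measure.real]

/-- Continuity at zero of the Fourier transform. -/
lemma phi_tendsto (ρ : Measure ℝ) [IsFiniteMeasure ρ] {x : ℕ → ℝ} (hx : Tendsto x atTop (𝓝 0)) :
    Tendsto (fun n => phi ρ (x n)) atTop (𝓝 (phi ρ 0)) := by
  unfold phi
  apply tendsto_integral_of_dominated_convergence (fun _ => (1 : ℝ))
  · intro n
    exact (continuous_exp_aux _).aestronglyMeasurable
  · exact integrable_const _
  · intro n
    filter_upwards with s
    rw [norm_exp_one]
  · filter_upwards with s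
    have hc : Continuous (fun y : ℝ => Complex.exp (2 * Real.pi * y * s * Complex.I)) := by
      fun_prop
    exact (hc.tendsto 0).comp hx

lemma geom_four {z : ℂ} (hz : z ^ 4 ≠ 1) : ∑ a : Fin 4, z ^ (a : ℕ) ≠ 0 := by
  intro h
  apply hz
  have h1 : z ^ 4 - 1 = (z - 1) * ∑ a : Fin 4, z ^ (a : ℕ) := by
    simp only [Fin.sum_univ_four]
    simp
    ring
  rw [h, mul_zero] at h1
  linear_combination h1

lemma symb_factor (v ξ : ℝ) : symb v ξ = (1 / 16) *
    (∑ a : Fin 4, (Complex.exp (2 * Real.pi * ξ * Complex.I)) ^ (a : ℕ)) *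
    (∑ b : Fin 4, (Complex.exp (2 * Real.pi * (v * ξ) * Complex.I)) ^ (b : ℕ)) := by
  unfold symb
  rw [mul_assoc (1 / 16 : ℂ), Finset.sum_mul_sum, Fintype.sum_prod_type, Finset.mul_sum]
  apply Finset.sum_congr rfl
  intro a _
  rw [Finset.mul_sum]
  apply Finset.sum_congr rfl
  intro b _
  rw [← Complex.exp_nat_mul, ← Complex.exp_nat_mul, ← Complex.exp_add]
  congr 2
  unfold dig
  push_cast
  ring

lemma exp_four_ne {x : ℝ} (h : ∀ N : ℤ, 4 * x ≠ N) :
    (Complex.exp (2 * Real.pi * x * Complex.I)) ^ 4 ≠ 1 := by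
  rw [← Complex.exp_nat_mul]
  intro h1
  rw [Complex.exp_eq_one_iff] at h1
  obtain ⟨N, hN⟩ := h1
  apply h N
  have h2 : (2 * Real.pi * Complex.I : ℂ) ≠ 0 := Complex.two_pi_I_ne_zero
  have h3 : ((4 * x : ℝ) : ℂ) = ((N : ℝ) : ℂ) := by
    apply mul_right_cancel₀ h2
    push_cast
    push_cast at hN
    linear_combination hN
  exact_mod_cast h3

lemma symb_ne_zero {v ξ : ℝ} (h1 : ∀ N : ℤ, 4 * ξ ≠ N) (h2 : ∀ N : ℤ, 4 * (v * ξ) ≠ N) :
    symb v ξ ≠ 0 := by
  rw [symb_factor]
  have h3 := geom_four (exp_four_ne h1)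
  have h4 := geom_four (exp_four_ne h2)
  push_cast at h4
  exact mul_ne_zero (mul_ne_zero (by norm_num) h3) h4

lemma symb_one {v ξ : ℝ} (h : ∀ d : Dg, ∃ N : ℤ, ξ * dig v d = N) : symb v ξ = 1 := by
  unfold symb
  have h1 : ∀ d : Dg, Complex.exp (2 * Real.pi * ξ * (dig v d : ℝ) * Complex.I) = 1 := by
    intro d
    obtain ⟨N, hN⟩ := h d
    rw [Complex.exp_eq_one_iff]
    refine ⟨N, ?_⟩
    have h2 : (ξ : ℂ) * (dig v d : ℂ) = N := by exact_mod_cast hN
    linear_combination (2 * Real.pi * Complex.I) * h2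
  simp_rw [h1]
  rw [Finset.sum_const, Finset.card_univ, Fintype.card_prod, Fintype.card_fin]
  norm_num

/-- Riemann-Lebesgue for an absolutely continuous measure. -/
lemma phi_RL {f : ℝ → ℝ≥0∞} (hf : Measurable f) [IsFiniteMeasure (volume.withDensity f)]
    {x : ℕ → ℝ} (hx : Tendsto x atTop atTop) :
    Tendsto (fun n => phi (volume.withDensity f) (x n)) atTop (𝓝 0) := by
  have hfin : ∀ᵐ s, f s < ∞ := by
    apply ae_lt_top hf
    have := measure_lt_top (volume.withDensity f) univ
    rw [withDensity_apply _ MeasurableSet.univ, Measure.restrict_univ] at this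
    exact this.ne
  have h1 := Real.tendsto_integral_exp_smul_cocompact (fun s : ℝ => ((f s).toReal : ℂ))
  have h2 : Tendsto (fun n => -(x n)) atTop (cocompact ℝ) :=
    (tendsto_neg_atTop_atBot.comp hx).mono_right atBot_le_cocompact
  refine (h1.comp h2).congr ?_
  intro n
  simp only [Function.comp]
  unfold phi
  rw [integral_withDensity_eq_integral_toReal_smul hf hfin]
  apply integral_congr_ae
  filter_upwards with s
  rw [Circle.smul_def, Real.fourierChar_apply, smul_eq_mul, Complex.real_smul, mul_comm]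
  congr 2
  push_cast
  ring

end Pool.Agent.Lib.MP_203158_an
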