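import Pool.Agent.Lib.MP_203158_an.Inf

/-!
# MP_203158_an : the potential is infinite almost everywhere in good directions, III
-/

namespace Pool.Agent.Lib.MP_203158_an

open MeasureTheory Set Metric Filter Topology
open scoped ENNReal NNReal

lemma nu_AI_le_zero {v : ℝ} (hv2 : 2 ≤ v) (hv3 : v ≤ 3) {C : ℝ≥0} (hC : nu v ≤ C • volume) (M : ℕ) :
    nu v ({t | AI v t ≤ M} ∩ Icc 0 (LL v)) = 0 := by
  have hm : MeasurableSet ({t | AI v t ≤ M} ∩ Icc 0 (LL v)) :=
    (measurableSet_le (measurable_AI v) measurable_const).inter measurableSet_Icc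
  have h1 : ∀ l : ℕ, nu v ({t | AI v t ≤ M} ∩ Icc 0 (LL v)) ≤
      (1 / 2) ^ l * (C * (M * ENNReal.ofReal (LL v))) := by
    intro l
    refine (nu_le_AI hv2 hv3 hC l hm).trans ?_
    have h2 : ∫⁻ t in ({t | AI v t ≤ M} ∩ Icc 0 (LL v)), AI v t ≤ M * ENNReal.ofReal (LL v) := by
      calc ∫⁻ t in ({t | AI v t ≤ M} ∩ Icc 0 (LL v)), AI v t
          ≤ ∫⁻ t in ({t | AI v t ≤ M} ∩ Icc 0 (LL v)), (M : ℝ≥0∞) := by
            apply setLIntegral_mono' hm
            intro t ht
            exact ht.1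
        _ = M * volume ({t | AI v t ≤ M} ∩ Icc 0 (LL v)) := by
            rw [setLIntegral_const]
        _ ≤ M * ENNReal.ofReal (LL v) := by
            apply mul_le_mul_right
            refine (measure_mono inter_subset_right).trans ?_
            rw [Real.volume_Icc, sub_zero]
    calc _ ≤ (C * (1 / 2) ^ l : ℝ≥0∞) * (M * ENNReal.ofReal (LL v)) := mul_le_mul_right h2 _
      _ = _ := by ring
  have h2 : Tendsto (fun l : ℕ => (1 / 2 : ℝ≥0∞) ^ l * (C * (M * ENNReal.ofReal (LL v)))) atTop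
      (𝓝 (0 * (C * (M * ENNReal.ofReal (LL v))))) := by
    apply ENNReal.Tendsto.mul_const
    · apply ENNReal.tendsto_pow_atTop_nhds_zero_of_lt_one
      rw [one_div]
      exact ENNReal.inv_lt_one.2 (by norm_num)
    · right
      exact ENNReal.mul_ne_top ENNReal.coe_ne_top
        (ENNReal.mul_ne_top (ENNReal.natCast_ne_top M) ENNReal.ofReal_ne_top)
  rw [zero_mul] at h2
  exact le_antisymm (ge_of_tendsto' h2 h1) (zero_le)

/-- The set where the potential is finite. -/
def DD (v : ℝ) : Set ℝ := {t | t ∈ Ioo 0 (LL v) ∧ AI v t ≠ ∞}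

lemma measurableSet_DD (v : ℝ) : MeasurableSet (DD v) :=
  measurableSet_Ioo.inter ((measurable_AI v) (measurableSet_singleton _).compl)

lemma nu_DD {v : ℝ} (hv2 : 2 ≤ v) (hv3 : v ≤ 3) {C : ℝ≥0} (hC : nu v ≤ C • volume) :
    nu v (DD v) = 0 := by
  have h1 : DD v ⊆ ⋃ M : ℕ, ({t | AI v t ≤ M} ∩ Icc 0 (LL v)) := by
    rintro t ⟨ht1, ht2⟩
    obtain ⟨M, hM⟩ := ENNReal.exists_nat_gt ht2
    exact mem_iUnion.2 ⟨M, hM.le, Ioo_subset_Icc_self ht1⟩
  refine measure_mono_null h1 ?_
  rw [measure_iUnion_null_iff]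
  exact nu_AI_le_zero hv2 hv3 hC

lemma AI_step {v t : ℝ} (h : AI v t ≠ ∞) (d : Dg) : AI v (8 * t - dig v d) ≠ ∞ := by
  have h1 := AI_super v t
  have h2 : (1 / 2) * AI v (8 * t - dig v d) ≤ AI v t :=
    (Finset.single_le_sum (f := fun d : Dg => (1 / 2) * AI v (8 * t - dig v d))
      (fun _ _ => zero_le) (Finset.mem_univ d)).trans h1
  intro h3
  rw [h3, ENNReal.mul_top (by simp)] at h2
  exact h (top_le_iff.1 h2)

lemma exists_scale {v : ℝ} (hv2 : 2 ≤ v) (hv3 : v ≤ 3) {t0 : ℝ} (ht0 : t0 ∈ Icc 0 (LL v)) (n : ℕ) :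
    ∃ c : ℝ, 8 ^ n * t0 - c ∈ Icc 0 (LL v) ∧
      ∀ t ∈ DD v, 8 ^ n * t - c ∈ Ioo 0 (LL v) → 8 ^ n * t - c ∈ DD v := by
  induction n with
  | zero =>
    refine ⟨0, ?_, ?_⟩
    · simpa using ht0
    · intro t ht _
      simpa using ht
  | succ n ih =>
    obtain ⟨c, hc1, hc2⟩ := ih
    obtain ⟨d, hd⟩ := exists_digit hv2 hv3 hc1
    refine ⟨8 * c + dig v d, ?_, ?_⟩
    · have : (8 : ℝ) ^ (n + 1) * t0 - (8 * c + dig v d) = 8 * (8 ^ n * t0 - c) - dig v d := by
        rw [pow_succ]; ring
      rw [this]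
      exact hd
    · intro t ht htI
      have h1 : (8 : ℝ) ^ (n + 1) * t - (8 * c + dig v d) = 8 * (8 ^ n * t - c) - dig v d := by
        rw [pow_succ]; ring
      rw [h1] at htI ⊢
      have h2 := map_mem_Ioo (by linarith) d htI
      rw [show (8 * (8 ^ n * t - c) - dig v d + dig v d) / 8 = 8 ^ n * t - c by ring] at h2
      have h3 := hc2 t ht h2
      exact ⟨htI, AI_step h3.2 d⟩

/-- In a good direction the potential is infinite almost everywhere. -/
lemma volume_DD {v : ℝ} (hv2 : 2 ≤ v) (hv3 : v ≤ 3) (hgood : GoodDir v) : volume (DD v) = 0 := by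
  obtain ⟨C, hC⟩ := hgood
  by_contra hne
  have hL : 0 < LL v := by unfold LL; linarith
  have hdens := IsUnifLocDoublingMeasure.ae_tendsto_measure_inter_div
    (volume : Measure ℝ) (DD v) 1
  have hex : ∃ t0 ∈ DD v, ∀ {ι : Type} {l : Filter ι} (w : ι → ℝ) (δ : ι → ℝ)
      (_ : Tendsto δ l (𝓝[>] 0)) (_ : ∀ᶠ j in l, t0 ∈ closedBall (w j) (1 * δ j)),
      Tendsto (fun j => volume (DD v ∩ closedBall (w j) (δ j)) / volume (closedBall (w j) (δ j)))
        l (𝓝 1) := by
    rw [ae_restrict_iff' (measurableSet_DD v)] at hdens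
    by_contra hcon
    push Not at hcon
    apply hne
    refine measure_mono_null ?_ (ae_iff.1 hdens)
    intro t ht h
    obtain ⟨ι, l, w, δ, h1, h2, h3⟩ := hcon t ht
    exact h3 (h ht w δ h1 h2)
  obtain ⟨t0, ht0, hlim⟩ := hex
  choose c hc1 hc2 using exists_scale hv2 hv3 (Ioo_subset_Icc_self ht0.1)
  have h8 : ∀ n : ℕ, (0 : ℝ) < 8 ^ n := fun n => by positivity
  set w : ℕ → ℝ := fun n => (c n + LL v / 2) / 8 ^ n with hw
  set δ : ℕ → ℝ := fun n => (LL v / 2) / 8 ^ n with hδ
  have hmemball : ∀ n t, t ∈ closedBall (w n) (δ n) ↔ 8 ^ n * t - c n ∈ Icc 0 (LL v) := by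
    intro n t
    rw [Real.closedBall_eq_Icc, hw, hδ]
    simp only [mem_Icc]
    rw [← sub_div, ← add_div, div_le_iff₀ (h8 n), le_div_iff₀ (h8 n)]
    constructor
    · rintro ⟨hA, hB⟩
      constructor <;> linarith
    · rintro ⟨hA, hB⟩
      constructor <;> linarith
  have hδlim : Tendsto δ atTop (𝓝[>] 0) := by
    rw [tendsto_nhdsWithin_iff]
    constructor
    · have h1 : Tendsto (fun n : ℕ => (LL v / 2) * (1 / 8 : ℝ) ^ n) atTop (𝓝 ((LL v / 2) * 0)) :=
        (tendsto_pow_atTop_nhds_zero_of_lt_one (by norm_num) (by norm_num)).const_mul _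
      rw [mul_zero] at h1
      refine h1.congr ?_
      intro n
      rw [hδ]
      simp only
      rw [div_eq_mul_inv _ ((8 : ℝ) ^ n), one_div, inv_pow]
    · refine Eventually.of_forall fun n => ?_
      have := h8 n
      simp only [hδ, mem_Ioi]
      positivity
  have hlim1 := hlim w δ hδlim (Eventually.of_forall fun n => by
    rw [one_mul, hmemball]
    exact hc1 n)
  have hbound : ∀ n : ℕ, volume (DD v ∩ closedBall (w n) (δ n)) / volume (closedBall (w n) (δ n))
      ≤ volume (DD v) / ENNReal.ofReal (LL v) := by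
    intro n
    have h1 : volume (closedBall (w n) (δ n)) = ENNReal.ofReal (1 / 8 ^ n) * ENNReal.ofReal (LL v) := by
      rw [Real.volume_closedBall, ← ENNReal.ofReal_mul (by positivity)]
      congr 1
      rw [hδ]
      field_simp
    have h2 : volume (DD v ∩ closedBall (w n) (δ n)) ≤ ENNReal.ofReal (1 / 8 ^ n) * volume (DD v) := by
      have h3 : DD v ∩ closedBall (w n) (δ n) ⊆
          ((fun t => 8 ^ n * t) ⁻¹' ((fun t => t + (-c n)) ⁻¹' (DD v))) ∪
            {c n / 8 ^ n, (c n + LL v) / 8 ^ n} := by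
        rintro t ⟨htD, htB⟩
        rw [hmemball] at htB
        have h8n := h8 n
        by_cases h4 : 8 ^ n * t - c n = 0
        · right
          left
          field_simp
          linarith
        · by_cases h5 : 8 ^ n * t - c n = LL v
          · right
            right
            simp only [mem_singleton_iff]
            field_simp
            linarith
          · left
            have := hc2 n t htD ⟨lt_of_le_of_ne htB.1 (Ne.symm h4), lt_of_le_of_ne htB.2 h5⟩
            rw [sub_eq_add_neg] at this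
            exact this
      refine (measure_mono h3).trans ((measure_union_le _ _).trans ?_)
      have h6 : volume ({c n / 8 ^ n, (c n + LL v) / 8 ^ n} : Set ℝ) = 0 :=
        (Set.toFinite _).measure_zero _
      rw [h6, add_zero, Real.volume_preimage_mul_left (h8 n).ne', measure_preimage_add_right]
      apply le_of_eq
      congr 2
      rw [abs_of_pos (inv_pos.2 (h8 n)), one_div]
    rw [h1]
    refine (ENNReal.div_le_div_right h2 _).trans (le_of_eq ?_)
    rw [ENNReal.mul_div_mul_left]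
    · have := h8 n
      simp only [ne_eq, ENNReal.ofReal_eq_zero, not_le]
      positivity
    · exact ENNReal.ofReal_ne_top
  have h1 : (1 : ℝ≥0∞) ≤ volume (DD v) / ENNReal.ofReal (LL v) := le_of_tendsto' hlim1 hbound
  have h2 : ENNReal.ofReal (LL v) ≤ volume (DD v) := by
    have h3 := (ENNReal.le_div_iff_mul_le (Or.inl (by simpa using hL))
      (Or.inl ENNReal.ofReal_ne_top)).1 h1
    rwa [one_mul] at h3
  have h3 : volume (Ioo 0 (LL v) \ DD v) = 0 := by
    rw [measure_sdiff (fun t ht => ht.1) (measurableSet_DD v).nullMeasurableSet]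
    · rw [Real.volume_Ioo, sub_zero]
      exact tsub_eq_zero_of_le h2
    · refine (lt_of_le_of_lt (measure_mono (fun t ht => ht.1 : DD v ⊆ Ioo 0 (LL v))) ?_).ne
      rw [Real.volume_Ioo]
      exact ENNReal.ofReal_lt_top
  have h4 : nu v (Ioo 0 (LL v) \ DD v) = 0 := by
    have := hC (Ioo 0 (LL v) \ DD v)
    rw [Measure.smul_apply, h3, smul_zero] at this
    exact le_antisymm this zero_le
  have h5 : nu v univ = 0 := by
    refine measure_mono_null (t := (Ioo 0 (LL v) \ DD v) ∪ DD v ∪ ({0} ∪ {LL v}) ∪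
      (Icc 0 (LL v))ᶜ) ?_ ?_
    · intro t _
      by_cases h6 : t ∈ Icc 0 (LL v)
      · left
        by_cases h7 : t = 0
        · right; left; exact h7
        · by_cases h8 : t = LL v
          · right; right; exact h8
          · left
            have h9 : t ∈ Ioo 0 (LL v) :=
              ⟨lt_of_le_of_ne h6.1 (Ne.symm h7), lt_of_le_of_ne h6.2 h8⟩
            by_cases h10 : t ∈ DD v
            · right; exact h10
            · left; exact ⟨h9, h10⟩
      · right; exact h6
    · rw [measure_union_null_iff, measure_union_null_iff, measure_union_null_iff,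
        measure_union_null_iff]
      exact ⟨⟨⟨h4, nu_DD hv2 hv3 hC⟩, nu_singleton hC 0, nu_singleton hC _⟩,
        nu_support (by linarith)⟩
  rw [nu_univ] at h5
  exact mu_pos.ne' h5

end Pool.Agent.Lib.MP_203158_an
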