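import Pool.Agent.Lib.MP_203158_an.Sing
import Pool.Agent.Lib.MP_203158_an.Density

/-!
# MP_203158_an : the category argument
-/

namespace Pool.Agent.Lib.MP_203158_an

open MeasureTheory Set Metric Filter Topology
open scoped ENNReal NNReal

/-- Directions in which the projected measure is almost concentrated on a small open set. -/
def Gset (n : ℕ) : Set ℝ :=
  {u | ∃ A : Set ℝ, IsOpen A ∧ volume A < (1 / 2) ^ n ∧ mu univ - (1 / 2) ^ n < mu (pr u ⁻¹' A)}

/-- Directions in which the potential is large on most of the projection. -/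
def Hset (n : ℕ) : Set ℝ :=
  {u | volume (Ioo 0 (LL u) \ {t | (n : ℝ≥0∞) < AI u t}) < (1 / 2) ^ n}

lemma half_pow_ne_zero (n : ℕ) : (1 / 2 : ℝ≥0∞) ^ n ≠ 0 := by
  apply pow_ne_zero
  simp

lemma half_pow_pos (n : ℕ) : 0 < (1 / 2 : ℝ≥0∞) ^ n := pos_iff_ne_zero.2 (half_pow_ne_zero n)

lemma isOpen_Gset (n : ℕ) : IsOpen (Gset n) := by
  rw [isOpen_iff_mem_nhds]
  rintro u ⟨A, hA, hA1, hA2⟩
  have hopen : IsOpen (pr u ⁻¹' A) := hA.preimage (continuous_pr u)
  obtain ⟨Q, hQA, hQ, hQmu⟩ := hopen.exists_lt_isCompact hA2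
  have hev : ∀ᶠ u' in 𝓝 u, ∀ x ∈ Q, pr u' x ∈ A := by
    apply hQ.eventually_forall_of_forall_eventually
    intro x hx
    exact continuous_pr2.continuousAt.eventually (hA.mem_nhds (hQA hx))
  filter_upwards [hev] with u' hu'
  exact ⟨A, hA, hA1, lt_of_lt_of_le hQmu (measure_mono hu')⟩

lemma Gset_of_singular {v : ℝ} (hv : nu v ⟂ₘ volume) (n : ℕ) : v ∈ Gset n := by
  obtain ⟨N, hN, hN1, hN2⟩ := hv
  obtain ⟨A, hA1, hA2, hA3⟩ := Set.exists_isOpen_lt_of_lt (Nᶜ) ((1 / 2) ^ n)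
    (by rw [hN2]; exact half_pow_pos n)
  refine ⟨A, hA2, hA3, ?_⟩
  have h1 : mu (pr v ⁻¹' A) = mu univ := by
    have h2 : nu v A = nu v univ := by
      apply le_antisymm (measure_mono (subset_univ _))
      have h3 : (univ : Set ℝ) ⊆ A ∪ N := by
        intro t _
        by_cases h : t ∈ N
        · right; exact h
        · left; exact hA1 h
      refine (measure_mono h3).trans ((measure_union_le _ _).trans ?_)
      rw [hN1, add_zero]
    rw [nu_univ, nu, Measure.map_apply (measurable_pr v) hA2.measurableSet] at h2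
    exact h2
  rw [h1]
  exact ENNReal.sub_lt_self (measure_ne_top _ _) mu_pos.ne' (half_pow_ne_zero n)

lemma Hset_mem_nhds {v : ℝ} (hv2 : 2 ≤ v) (hv3 : v ≤ 3) (hgood : GoodDir v) (n : ℕ) :
    Hset n ∈ 𝓝 v := by
  have hL : 0 < LL v := by unfold LL; linarith
  set T : Set ℝ := {t | (n : ℝ≥0∞) < AI v t} with hT
  have hTopen : IsOpen T := (lsc_AI_right v).isOpen_preimage _
  set U : Set ℝ := T ∩ Ioo 0 (LL v) with hU
  have hUopen : IsOpen U := hTopen.inter isOpen_Ioo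
  have hUvol : volume U = ENNReal.ofReal (LL v) := by
    have h1 : volume (Ioo 0 (LL v)) ≤ volume U := by
      have h2 : Ioo 0 (LL v) ⊆ U ∪ DD v := by
        intro t ht
        by_cases h : AI v t = ∞
        · left
          refine ⟨?_, ht⟩
          change (n : ℝ≥0∞) < AI v t
          rw [h]
          exact ENNReal.natCast_lt_top n
        · right
          exact ⟨ht, h⟩
      refine (measure_mono h2).trans ((measure_union_le _ _).trans ?_)
      rw [volume_DD hv2 hv3 hgood, add_zero]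
    have h3 : volume U ≤ volume (Ioo 0 (LL v)) := measure_mono inter_subset_right
    have h4 := le_antisymm h3 h1
    rw [h4, Real.volume_Ioo, sub_zero]
  set δ : ℝ≥0∞ := (1 / 2) ^ (n + 1) with hδ
  have hδ0 : δ ≠ 0 := half_pow_ne_zero (n + 1)
  have hδtop : δ ≠ ∞ := by
    rw [hδ]
    exact ENNReal.pow_ne_top (by simp)
  have hlt : ENNReal.ofReal (LL v) - δ < volume U := by
    rw [hUvol]
    exact ENNReal.sub_lt_self ENNReal.ofReal_ne_top (by simpa using hL) hδ0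
  obtain ⟨Q, hQU, hQ, hQvol⟩ := hUopen.exists_lt_isCompact hlt
  have hev : ∀ᶠ u in 𝓝 v, ∀ t ∈ Q, (n : ℝ≥0∞) < AI u t := by
    apply hQ.eventually_forall_of_forall_eventually (P := fun u t => (n : ℝ≥0∞) < AI u t)
    intro t ht
    exact (isOpen_AI n).mem_nhds (hQU ht).1
  have hev2 : ∀ᶠ u in 𝓝 v, ENNReal.ofReal (LL u - LL v) < δ := by
    have h1 : Tendsto (fun u => ENNReal.ofReal (LL u - LL v)) (𝓝 v) (𝓝 (ENNReal.ofReal 0)) := by
      apply ENNReal.tendsto_ofReal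
      have h2 : ContinuousAt (fun u => LL u - LL v) v :=
        (continuous_LL.sub continuous_const).continuousAt
      have h3 := h2.tendsto
      simp only [sub_self] at h3
      exact h3
    rw [ENNReal.ofReal_zero] at h1
    exact h1.eventually_lt_const (pos_iff_ne_zero.2 hδ0)
  filter_upwards [hev, hev2] with u hu1 hu2
  have hsub : Ioo 0 (LL u) \ {t | (n : ℝ≥0∞) < AI u t} ⊆
      (Ioo 0 (LL v) \ Q) ∪ Ico (LL v) (LL u) := by
    rintro t ⟨ht1, ht2⟩
    by_cases h : t < LL v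
    · left
      refine ⟨⟨ht1.1, h⟩, fun htQ => ht2 (hu1 t htQ)⟩
    · right
      exact ⟨not_lt.1 h, ht1.2⟩
  have hQsub : Q ⊆ Ioo 0 (LL v) := fun t ht => (hQU ht).2
  have h1 : volume (Ioo 0 (LL v) \ Q) ≤ δ := by
    rw [measure_sdiff hQsub hQ.isClosed.measurableSet.nullMeasurableSet hQ.measure_lt_top.ne,
      Real.volume_Ioo, sub_zero]
    rw [tsub_le_iff_right]
    rw [add_comm]
    exact (tsub_le_iff_right.1 hQvol.le)
  have h2 : volume (Ico (LL v) (LL u)) < δ := by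
    rw [Real.volume_Ico]
    exact hu2
  change volume (Ioo 0 (LL u) \ {t | (n : ℝ≥0∞) < AI u t}) < (1 / 2) ^ n
  calc volume (Ioo 0 (LL u) \ {t | (n : ℝ≥0∞) < AI u t})
      ≤ volume (Ioo 0 (LL v) \ Q) + volume (Ico (LL v) (LL u)) :=
        (measure_mono hsub).trans (measure_union_le _ _)
    _ < δ + δ := ENNReal.add_lt_add_of_le_of_lt (lt_of_le_of_lt h1 (lt_top_iff_ne_top.2 hδtop)).ne
        h1 h2
    _ = (1 / 2) ^ n := by
        rw [hδ, pow_succ, ← mul_add]
        have : (1 / 2 : ℝ≥0∞) + 1 / 2 = 1 := ENNReal.add_halves 1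
        rw [this, mul_one]

/-- Density of the special rationals. -/
lemma exists_rat (r : ℤ) {α β : ℝ} (h : α < β) :
    ∃ k m : ℤ, 0 ≤ k ∧ ∃ v : ℝ, α < v ∧ v < β ∧ v * (8 * k + 1) = 8 * m + r := by
  obtain ⟨k, hk⟩ := exists_nat_gt (1 / (β - α))
  have hβα : 0 < β - α := by linarith
  rw [div_lt_iff₀ hβα] at hk
  have hq : (0 : ℝ) < 8 * (k : ℝ) + 1 := by positivity
  set m : ℤ := ⌊((8 * (k : ℝ) + 1) * α - r) / 8⌋ + 1 with hm
  have h1 : ((8 * (k : ℝ) + 1) * α - r) / 8 < m := by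
    rw [hm]
    push_cast
    exact Int.lt_floor_add_one _
  have h2 : (m : ℝ) ≤ ((8 * (k : ℝ) + 1) * α - r) / 8 + 1 := by
    rw [hm]
    push_cast
    have := Int.floor_le (((8 * (k : ℝ) + 1) * α - r) / 8)
    linarith
  refine ⟨k, m, by positivity, (8 * m + r) / (8 * k + 1), ?_, ?_, ?_⟩
  · rw [lt_div_iff₀ hq]
    linarith
  · rw [div_lt_iff₀ hq]
    nlinarith
  · push_cast
    field_simp

lemma exists_Ioo_subset {O : Set ℝ} (hO : IsOpen O) (hne : O.Nonempty) :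
    ∃ α β : ℝ, α < β ∧ Ioo α β ⊆ O := by
  obtain ⟨x, hx⟩ := hne
  obtain ⟨ε, hε, hball⟩ := Metric.isOpen_iff.1 hO x hx
  refine ⟨x - ε, x + ε, by linarith, ?_⟩
  rw [← Real.ball_eq_Ioo]
  exact hball

lemma exists_generic : ∃ u : ℝ, 2 < u ∧ u < 3 ∧ ∀ n, u ∈ Gset n ∧ u ∈ Hset n := by
  set W : ℕ → Set ℝ := fun n => (Gset n ∩ interior (Hset n)) ∪ (Icc 2 3)ᶜ with hW
  have hWo : ∀ n, IsOpen (W n) := fun n =>
    ((isOpen_Gset n).inter isOpen_interior).union isClosed_Icc.isOpen_compl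
  have hWd : ∀ n, Dense (W n) := by
    intro n
    rw [dense_iff_inter_open]
    intro O hO hne
    by_cases hsub : O ⊆ Icc 2 3
    · obtain ⟨α, β, hαβ, hIO⟩ := exists_Ioo_subset hO hne
      obtain ⟨k, m, hk, v, hv1, hv2, hv⟩ := exists_rat 1 hαβ
      have hvG : v ∈ Gset n := Gset_of_singular (nu_singular hk (by push_cast at hv; exact hv)) n
      obtain ⟨α', β', hαβ', hIO'⟩ := exists_Ioo_subset (hO.inter (isOpen_Gset n))
        ⟨v, hIO ⟨hv1, hv2⟩, hvG⟩
      obtain ⟨k', m', hk', v', hv1', hv2', hv'⟩ := exists_rat 4 hαβ'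
      have hv'O := hIO' ⟨hv1', hv2'⟩
      have hv'I := hsub hv'O.1
      have hgood : GoodDir v' := goodDir_of k' m' hk' v' (by push_cast at hv'; exact hv')
      refine ⟨v', hv'O.1, Or.inl ⟨hv'O.2, ?_⟩⟩
      rw [mem_interior_iff_mem_nhds]
      exact Hset_mem_nhds hv'I.1 hv'I.2 hgood n
    · rw [Set.not_subset] at hsub
      obtain ⟨x, hx1, hx2⟩ := hsub
      exact ⟨x, hx1, Or.inr hx2⟩
  have hd : Dense (⋂ n, W n) := dense_iInter_of_isOpen_nat hWo hWd
  obtain ⟨u, hu1, hu2⟩ := hd.inter_open_nonempty (Ioo 2 3) isOpen_Ioo ⟨5 / 2, by norm_num⟩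
  refine ⟨u, hu1.1, hu1.2, fun n => ?_⟩
  have h1 := mem_iInter.1 hu2 n
  rcases h1 with h1 | h1
  · exact ⟨h1.1, interior_subset h1.2⟩
  · exact absurd (Ioo_subset_Icc_self hu1) h1

lemma singular_of_Gset {u : ℝ} (hu : ∀ n, u ∈ Gset n) : nu u ⟂ₘ volume := by
  choose A hAo hA1 hA2 using hu
  have hsum : ∑' n : ℕ, (1 / 2 : ℝ≥0∞) ^ n ≠ ∞ := by
    rw [ENNReal.tsum_geometric]
    simp
  have h1 : volume (limsup A atTop) = 0 := by
    apply measure_limsup_atTop_eq_zero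
    exact ne_top_of_le_ne_top hsum (ENNReal.tsum_le_tsum fun n => (hA1 n).le)
  have h2 : nu u (limsup (fun n => (A n)ᶜ) atTop) = 0 := by
    apply measure_limsup_atTop_eq_zero
    refine ne_top_of_le_ne_top hsum (ENNReal.tsum_le_tsum fun n => ?_)
    have h3 : mu univ ≤ mu (pr u ⁻¹' A n) + (1 / 2) ^ n := by
      have := (hA2 n).le
      rw [tsub_le_iff_right] at this
      exact this
    rw [measure_compl (hAo n).measurableSet (measure_ne_top _ _), nu_univ, tsub_le_iff_right, nu,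
      Measure.map_apply (measurable_pr u) (hAo n).measurableSet, add_comm]
    exact h3
  have hmeas : MeasurableSet (limsup A atTop) :=
    MeasurableSet.measurableSet_limsup (fun n => (hAo n).measurableSet)
  refine ⟨(limsup A atTop)ᶜ, hmeas.compl, ?_, ?_⟩
  · refine measure_mono_null ?_ h2
    intro t ht
    rw [mem_compl_iff, mem_limsup_iff_frequently_mem, not_frequently] at ht
    rw [mem_limsup_iff_frequently_mem]
    exact ht.frequently
  · rw [compl_compl]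
    exact h1

lemma DD_of_Hset {u : ℝ} (hu : ∀ n, u ∈ Hset n) : volume (DD u) = 0 := by
  have h1 : DD u ⊆ ⋃ M : ℕ, (Ioo 0 (LL u) \ {t | (M : ℝ≥0∞) < AI u t}) := by
    rintro t ⟨ht1, ht2⟩
    obtain ⟨M, hM⟩ := ENNReal.exists_nat_gt ht2
    exact mem_iUnion.2 ⟨M, ht1, not_lt.2 hM.le⟩
  refine measure_mono_null h1 ?_
  rw [measure_iUnion_null_iff]
  intro M
  have h2 : ∀ n ≥ M, volume (Ioo 0 (LL u) \ {t | (M : ℝ≥0∞) < AI u t}) ≤ (1 / 2) ^ n := by
    intro n hn
    refine le_trans (measure_mono ?_) (hu n).le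
    rintro t ⟨ht1, ht2⟩
    refine ⟨ht1, fun h => ht2 ?_⟩
    have h3 : (M : ℝ≥0∞) ≤ n := by exact_mod_cast hn
    exact lt_of_le_of_lt h3 h
  have h3 : Tendsto (fun n : ℕ => (1 / 2 : ℝ≥0∞) ^ n) atTop (𝓝 0) := by
    apply ENNReal.tendsto_pow_atTop_nhds_zero_of_lt_one
    rw [one_div]
    exact ENNReal.inv_lt_one.2 (by norm_num)
  refine le_antisymm (ge_of_tendsto h3 ?_) zero_le
  filter_upwards [eventually_ge_atTop M] with n hn
  exact h2 n hn

end Pool.Agent.Lib.MP_203158_an
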