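import Mathlib

/-!
# MP_203158_an : the self-similar set `K = C × C`

`C` is the set of reals `∑ 8^{-i-1} a_i` with `a_i ∈ {0,1,2,3}`.
-/

namespace Pool.Agent.Lib.MP_203158_an

open MeasureTheory Set Metric Filter Topology

/-- The plane. -/
abbrev E2 := EuclideanSpace ℝ (Fin 2)

/-- The digit alphabet. -/
abbrev Dg := Fin 4 × Fin 4

/-- The real number with base 8 digits in `{0,1,2,3}`. -/
noncomputable def cc (a : ℕ → Fin 4) : ℝ :=
  Real.ofDigits (b := 8) (fun i => Fin.castLE (by norm_num) (a i))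

lemma cc_cons (a : ℕ → Fin 4) :
    cc a = ((a 0 : ℕ) : ℝ) / 8 + cc (fun i => a (i + 1)) / 8 := by
  unfold cc
  rw [Real.ofDigits_eq_sum_add_ofDigits _ 1]
  simp [Real.ofDigitsTerm]
  ring

lemma cc_nonneg (a : ℕ → Fin 4) : 0 ≤ cc a := Real.ofDigits_nonneg _

lemma cc_le (a : ℕ → Fin 4) : cc a ≤ 3 / 7 := by
  unfold cc Real.ofDigits
  have h1 : ∀ n : ℕ, Real.ofDigitsTerm (b := 8) (fun i => Fin.castLE (by norm_num) (a i)) n
      ≤ (3 / 8) * (1 / 8 : ℝ) ^ n := by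
    intro n
    unfold Real.ofDigitsTerm
    have h2 : (((Fin.castLE (by norm_num : 4 ≤ 8) (a n)) : ℕ) : ℝ) ≤ 3 := by
      have : ((a n : ℕ)) ≤ 3 := by have := (a n).isLt; omega
      rw [Fin.val_castLE]
      exact_mod_cast this
    have h3 : (((8 : ℕ) : ℝ) ^ (n + 1))⁻¹ = (1 / 8) * (1 / 8 : ℝ) ^ n := by
      push_cast
      rw [pow_succ, mul_inv, one_div, inv_pow]
      ring
    rw [h3]
    have h4 : 0 ≤ (1 / 8) * (1 / 8 : ℝ) ^ n := by positivity
    calc _ ≤ 3 * ((1 / 8) * (1 / 8 : ℝ) ^ n) := mul_le_mul_of_nonneg_right h2 h4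
      _ = _ := by ring
  have hs : Summable (fun n : ℕ => (3 / 8) * (1 / 8 : ℝ) ^ n) :=
    (summable_geometric_of_lt_one (by norm_num) (by norm_num)).mul_left _
  calc _ ≤ ∑' n : ℕ, (3 / 8) * (1 / 8 : ℝ) ^ n :=
        Summable.tsum_mono Real.summable_ofDigitsTerm hs h1
    _ = 3 / 7 := by
        rw [tsum_mul_left, tsum_geometric_of_lt_one (by norm_num) (by norm_num)]
        norm_num

lemma continuous_cc : Continuous cc := by
  unfold cc
  apply Real.continuous_ofDigits.comp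
  apply continuous_pi
  intro i
  exact (continuous_of_discreteTopology (f := fun z : Fin 4 => Fin.castLE (by norm_num : 4 ≤ 8) z)).comp
    (continuous_apply i)

/-- The coding map. -/
noncomputable def XX (ω : ℕ → Dg) : E2 := !₂[cc (fun i => (ω i).1), cc (fun i => (ω i).2)]

@[simp] lemma XX_zero (ω : ℕ → Dg) : XX ω 0 = cc (fun i => (ω i).1) := rfl
@[simp] lemma XX_one (ω : ℕ → Dg) : XX ω 1 = cc (fun i => (ω i).2) := rfl

lemma continuous_XX : Continuous XX := by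
  unfold XX
  apply (PiLp.continuous_toLp 2 _).comp
  apply continuous_pi
  intro i
  fin_cases i
  · apply continuous_cc.comp
    exact continuous_pi fun i => continuous_fst.comp (continuous_apply i)
  · apply continuous_cc.comp
    exact continuous_pi fun i => continuous_snd.comp (continuous_apply i)

/-- The vector with integer coordinates. -/
noncomputable def vec (a b : ℝ) : E2 := !₂[a, b]

@[simp] lemma vec_zero (a b : ℝ) : vec a b 0 = a := rfl
@[simp] lemma vec_one (a b : ℝ) : vec a b 1 = b := rfl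

/-- The similitudes. -/
noncomputable def psi (d : Dg) (x : E2) : E2 := (1 / 8 : ℝ) • x + (1 / 8 : ℝ) • vec (d.1 : ℕ) (d.2 : ℕ)

lemma psi_zero (d : Dg) (x : E2) : psi d x 0 = (x 0 + (d.1 : ℕ)) / 8 := by
  simp [psi]; ring

lemma psi_one (d : Dg) (x : E2) : psi d x 1 = (x 1 + (d.2 : ℕ)) / 8 := by
  simp [psi]; ring

lemma ext2 {x y : E2} (h0 : x 0 = y 0) (h1 : x 1 = y 1) : x = y := by
  ext i
  fin_cases i
  · exact h0
  · exact h1

lemma XX_cons (ω : ℕ → Dg) : XX ω = psi (ω 0) (XX (fun i => ω (i + 1))) := by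
  apply ext2
  · rw [psi_zero, XX_zero, XX_zero, cc_cons]; ring
  · rw [psi_one, XX_one, XX_one, cc_cons]; ring

/-- The self-similar set. -/
def KK : Set E2 := range XX

lemma isCompact_KK : IsCompact KK := isCompact_range continuous_XX

lemma KK_nonempty : KK.Nonempty := range_nonempty _

lemma psi_mem {d : Dg} {x : E2} (hx : x ∈ KK) : psi d x ∈ KK := by
  obtain ⟨ω, rfl⟩ := hx
  refine ⟨fun i => Nat.casesOn i d ω, ?_⟩
  rw [XX_cons]
  rfl

lemma exists_psi {x : E2} (hx : x ∈ KK) : ∃ d, ∃ y ∈ KK, psi d y = x := by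
  obtain ⟨ω, rfl⟩ := hx
  exact ⟨ω 0, _, ⟨_, rfl⟩, (XX_cons ω).symm⟩

lemma KK_eq : KK = ⋃ d, psi d '' KK := by
  ext x
  simp only [mem_iUnion, mem_image]
  constructor
  · intro hx
    exact exists_psi hx
  · rintro ⟨d, y, hy, rfl⟩
    exact psi_mem hy

lemma KK_bounds {x : E2} (hx : x ∈ KK) : 0 ≤ x 0 ∧ x 0 ≤ 3 / 7 ∧ 0 ≤ x 1 ∧ x 1 ≤ 3 / 7 := by
  obtain ⟨ω, rfl⟩ := hx
  exact ⟨cc_nonneg _, cc_le _, cc_nonneg _, cc_le _⟩

lemma dist_psi (d : Dg) (x y : E2) : dist (psi d x) (psi d y) = dist x y / 8 := by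
  unfold psi
  rw [dist_add_right, dist_smul₀]
  simp
  ring

lemma abs_sub_le_dist (x y : E2) (i : Fin 2) : |x i - y i| ≤ dist x y := by
  have h := PiLp.norm_apply_le (x - y) i
  rw [dist_eq_norm]
  simpa using h

lemma dist_le_of_coord (x y : E2) : dist x y ≤ |x 0 - y 0| + |x 1 - y 1| := by
  rw [EuclideanSpace.dist_eq, Fin.sum_univ_two]
  apply Real.sqrt_le_iff.2
  constructor
  · positivity
  · simp only [Real.dist_eq]
    nlinarith [abs_nonneg (x 0 - y 0), abs_nonneg (x 1 - y 1),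
      mul_nonneg (abs_nonneg (x 0 - y 0)) (abs_nonneg (x 1 - y 1))]

/-- Points in different first level pieces are at distance at least `1/14`. -/
lemma sep_psi {d d' : Dg} (h : d ≠ d') {x y : E2} (hx : x ∈ KK) (hy : y ∈ KK) :
    1 / 14 ≤ dist (psi d x) (psi d' y) := by
  obtain ⟨hx0, hx0', hx1, hx1'⟩ := KK_bounds hx
  obtain ⟨hy0, hy0', hy1, hy1'⟩ := KK_bounds hy
  by_cases h1 : d.1 = d'.1
  · have h2 : d.2 ≠ d'.2 := fun h2 => h (Prod.ext h1 h2)
    refine le_trans ?_ (abs_sub_le_dist _ _ 1)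
    rw [psi_one, psi_one]
    have h3 : (d.2 : ℕ) ≠ (d'.2 : ℕ) := fun h3 => h2 (Fin.ext h3)
    rcases lt_or_gt_of_ne h3 with h4 | h4
    · have h5 : ((d.2 : ℕ) : ℝ) + 1 ≤ (d'.2 : ℕ) := by exact_mod_cast h4
      rw [abs_sub_comm]
      refine le_trans ?_ (le_abs_self _)
      linarith
    · have h5 : ((d'.2 : ℕ) : ℝ) + 1 ≤ (d.2 : ℕ) := by exact_mod_cast h4
      refine le_trans ?_ (le_abs_self _)
      linarith
  · refine le_trans ?_ (abs_sub_le_dist _ _ 0)
    rw [psi_zero, psi_zero]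
    have h3 : (d.1 : ℕ) ≠ (d'.1 : ℕ) := fun h3 => h1 (Fin.ext h3)
    rcases lt_or_gt_of_ne h3 with h4 | h4
    · have h5 : ((d.1 : ℕ) : ℝ) + 1 ≤ (d'.1 : ℕ) := by exact_mod_cast h4
      rw [abs_sub_comm]
      refine le_trans ?_ (le_abs_self _)
      linarith
    · have h5 : ((d'.1 : ℕ) : ℝ) + 1 ≤ (d.1 : ℕ) := by exact_mod_cast h4
      refine le_trans ?_ (le_abs_self _)
      linarith

lemma psi_disjoint {d d' : Dg} (h : d ≠ d') : Disjoint (psi d '' KK) (psi d' '' KK) := by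
  rw [Set.disjoint_left]
  rintro _ ⟨x, hx, rfl⟩ ⟨y, hy, hxy⟩
  have := sep_psi h hx hy
  rw [hxy, dist_self] at this
  linarith

lemma continuous_psi (d : Dg) : Continuous (psi d) := by
  unfold psi
  fun_prop

lemma psi_injective (d : Dg) : Function.Injective (psi d) := by
  intro x y h
  have := dist_psi d x y
  rw [h, dist_self] at this
  have h2 : dist x y = 0 := by linarith
  exact dist_eq_zero.1 h2

/-- Diameter bound for `K`. -/
lemma dist_le_one {x y : E2} (hx : x ∈ KK) (hy : y ∈ KK) : dist x y ≤ 1 := by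
  obtain ⟨hx0, hx0', hx1, hx1'⟩ := KK_bounds hx
  obtain ⟨hy0, hy0', hy1, hy1'⟩ := KK_bounds hy
  refine (dist_le_of_coord x y).trans ?_
  have h0 : |x 0 - y 0| ≤ 3 / 7 := abs_sub_le_iff.2 ⟨by linarith, by linarith⟩
  have h1 : |x 1 - y 1| ≤ 3 / 7 := abs_sub_le_iff.2 ⟨by linarith, by linarith⟩
  linarith

end Pool.Agent.Lib.MP_203158_an
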