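import Pool.Agent.Lib.MP_203158_an.Proj

/-!
# MP_203158_an : the potential

`AA n u t` is the largest value of `∑ 2^{-|w|}` over antichains of words of length at most `n`
whose pieces meet the slice over `t`.
-/

namespace Pool.Agent.Lib.MP_203158_an

open MeasureTheory Set Metric Filter Topology
open scoped ENNReal

/-- The potential of depth `n`. -/
noncomputable def AA : ℕ → ℝ → ℝ → ℝ≥0∞
  | 0, u, t => (Ioo 0 (LL u)).indicator (fun _ => 1) t
  | n + 1, u, t => max ((Ioo 0 (LL u)).indicator (fun _ => 1) t)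
      (∑ d : Dg, (1 / 2) * AA n u (8 * t - dig u d))

lemma AA_zero (u t : ℝ) : AA 0 u t = (Ioo 0 (LL u)).indicator (fun _ => 1) t := rfl

lemma AA_succ (n : ℕ) (u t : ℝ) : AA (n + 1) u t = max ((Ioo 0 (LL u)).indicator (fun _ => 1) t)
    (∑ d : Dg, (1 / 2) * AA n u (8 * t - dig u d)) := rfl

lemma AA_le_succ (n : ℕ) : ∀ u t : ℝ, AA n u t ≤ AA (n + 1) u t := by
  induction n with
  | zero =>
    intro u t
    rw [AA_succ, AA_zero]
    exact le_max_left _ _
  | succ n ih =>
    intro u t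
    rw [AA_succ n, AA_succ (n + 1)]
    apply max_le_max le_rfl
    apply Finset.sum_le_sum
    intro d _
    gcongr
    exact ih _ _

lemma AA_mono (u t : ℝ) : Monotone (fun n => AA n u t) :=
  monotone_nat_of_le_succ (fun n => AA_le_succ n u t)

/-- The full potential. -/
noncomputable def AI (u t : ℝ) : ℝ≥0∞ := ⨆ n, AA n u t

lemma AA_le_AI (n : ℕ) (u t : ℝ) : AA n u t ≤ AI u t := le_iSup (fun n => AA n u t) n

lemma one_le_AI {u t : ℝ} (ht : t ∈ Ioo 0 (LL u)) : 1 ≤ AI u t := by
  refine le_trans ?_ (AA_le_AI 0 u t)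
  rw [AA_zero, indicator_of_mem ht]

lemma AI_super (u t : ℝ) : ∑ d : Dg, (1 / 2) * AI u (8 * t - dig u d) ≤ AI u t := by
  have h1 : ∀ d : Dg, (1 / 2) * AI u (8 * t - dig u d)
      = ⨆ n, (1 / 2) * AA n u (8 * t - dig u d) := by
    intro d
    unfold AI
    rw [ENNReal.mul_iSup]
  simp_rw [h1]
  rw [ENNReal.finsetSum_iSup_of_monotone]
  · apply iSup_le
    intro n
    refine le_trans ?_ (AA_le_AI (n + 1) u t)
    rw [AA_succ]
    exact le_max_right _ _
  · intro d m n hmn
    exact mul_le_mul_right (AA_mono u _ hmn) _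

lemma continuous_LL : Continuous LL := by
  unfold LL
  fun_prop

lemma lsc_ind : LowerSemicontinuous
    (fun q : ℝ × ℝ => (Ioo 0 (LL q.1)).indicator (fun _ => (1 : ℝ≥0∞)) q.2) := by
  have h1 : IsOpen {q : ℝ × ℝ | q.2 ∈ Ioo 0 (LL q.1)} := by
    have h2 : {q : ℝ × ℝ | q.2 ∈ Ioo 0 (LL q.1)} = {q | 0 < q.2} ∩ {q | q.2 < LL q.1} := by
      ext q; simp [mem_Ioo]
    rw [h2]
    exact (isOpen_lt continuous_const continuous_snd).inter
      (isOpen_lt continuous_snd (continuous_LL.comp continuous_fst))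
  exact h1.lowerSemicontinuous_indicator (y := (1 : ℝ≥0∞)) (zero_le)

lemma lsc_AA (n : ℕ) : LowerSemicontinuous (fun q : ℝ × ℝ => AA n q.1 q.2) := by
  induction n with
  | zero => exact lsc_ind
  | succ n ih =>
    have h1 : ∀ d : Dg, LowerSemicontinuous
        (fun q : ℝ × ℝ => (1 / 2 : ℝ≥0∞) * AA n q.1 (8 * q.2 - dig q.1 d)) := by
      intro d
      have hc : Continuous (fun q : ℝ × ℝ => (q.1, 8 * q.2 - dig q.1 d)) := by
        unfold dig
        fun_prop
      have h2 := LowerSemicontinuous.comp ih hc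
      exact ((ENNReal.continuous_const_mul (by simp)).comp_lowerSemicontinuous h2
        (fun a b hab => mul_le_mul_right hab _))
    have h3 : LowerSemicontinuous
        (fun q : ℝ × ℝ => ∑ d : Dg, (1 / 2 : ℝ≥0∞) * AA n q.1 (8 * q.2 - dig q.1 d)) :=
      lowerSemicontinuous_sum (fun d _ => h1 d)
    exact lsc_ind.sup h3

lemma lsc_AI : LowerSemicontinuous (fun q : ℝ × ℝ => AI q.1 q.2) := by
  unfold AI
  exact lowerSemicontinuous_iSup (fun n => lsc_AA n)

lemma isOpen_AI (M : ℝ≥0∞) : IsOpen {q : ℝ × ℝ | M < AI q.1 q.2} := by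
  have := lsc_AI.isOpen_preimage M
  exact this

lemma lsc_AI_right (u : ℝ) : LowerSemicontinuous (AI u) := by
  have hc : Continuous (fun t : ℝ => (u, t)) := by fun_prop
  exact LowerSemicontinuous.comp (f := fun q : ℝ × ℝ => AI q.1 q.2) lsc_AI hc

lemma measurable_AI (u : ℝ) : Measurable (AI u) := (lsc_AI_right u).measurable

/-- Families of separated points in the slices realising the potential. -/
lemma family (n : ℕ) : ∀ (u t : ℝ), 2 ≤ u → u ≤ 3 →
    ∃ (ι : Type) (_ : Fintype ι) (x : ι → E2) (k : ι → ℕ),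
      (∀ i, x i ∈ KK ∧ pr u (x i) = t) ∧
      (∀ i j, i ≠ j → (1 / 2) * (1 / 8 : ℝ) ^ (min (k i) (k j)) ≤ dist (x i) (x j)) ∧
      AA n u t ≤ ∑ i, (1 / 2) ^ (k i) := by
  have base : ∀ (u t : ℝ), 2 ≤ u → u ≤ 3 →
    ∃ (ι : Type) (_ : Fintype ι) (x : ι → E2) (k : ι → ℕ),
      (∀ i, x i ∈ KK ∧ pr u (x i) = t) ∧
      (∀ i j, i ≠ j → (1 / 2) * (1 / 8 : ℝ) ^ (min (k i) (k j)) ≤ dist (x i) (x j)) ∧
      (Ioo 0 (LL u)).indicator (fun _ => 1) t ≤ (∑ i, (1 / 2) ^ (k i) : ℝ≥0∞) := by
    intro u t hu2 hu3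
    by_cases ht : t ∈ Ioo 0 (LL u)
    · obtain ⟨x, hx, hxt⟩ := exists_slice hu2 hu3 (Ioo_subset_Icc_self ht)
      refine ⟨Unit, inferInstance, fun _ => x, fun _ => 0, fun _ => ⟨hx, hxt⟩, ?_, ?_⟩
      · intro i j hij
        exact absurd (Subsingleton.elim i j) hij
      · rw [indicator_of_mem ht]
        simp
    · refine ⟨Empty, inferInstance, fun i => i.elim, fun i => i.elim, fun i => i.elim,
        fun i => i.elim, ?_⟩
      rw [indicator_of_notMem ht]
      exact zero_le
  induction n with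
  | zero => exact base
  | succ n ih =>
    intro u t hu2 hu3
    rcases le_total (∑ d : Dg, (1 / 2) * AA n u (8 * t - dig u d))
      ((Ioo 0 (LL u)).indicator (fun _ => (1 : ℝ≥0∞)) t) with h | h
    · obtain ⟨ι, hι, x, k, h1, h2, h3⟩ := base u t hu2 hu3
      refine ⟨ι, hι, x, k, h1, h2, ?_⟩
      rw [AA_succ, max_eq_left h]
      exact h3
    · choose ι hι x k h1 h2 h3 using fun d : Dg => ih u (8 * t - dig u d) hu2 hu3
      refine ⟨Σ d, ι d, inferInstance, fun p => psi p.1 (x p.1 p.2), fun p => k p.1 p.2 + 1,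
        ?_, ?_, ?_⟩
      · rintro ⟨d, i⟩
        refine ⟨psi_mem (h1 d i).1, ?_⟩
        simp only
        rw [pr_psi, (h1 d i).2]
        ring
      · rintro ⟨d, i⟩ ⟨d', j⟩ hij
        simp only
        by_cases hd : d = d'
        · subst hd
          have hij' : i ≠ j := fun h => hij (by rw [h])
          rw [dist_psi]
          have h4 := h2 d i j hij'
          have h5 : min (k d i + 1) (k d j + 1) = min (k d i) (k d j) + 1 := by omega
          rw [h5, pow_succ]
          linarith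
        · refine le_trans ?_ (sep_psi hd (h1 d i).1 (h1 d' j).1)
          have h5 : min (k d i + 1) (k d' j + 1) = min (k d i) (k d' j) + 1 := by omega
          rw [h5, pow_succ]
          have h6 : (1 / 8 : ℝ) ^ (min (k d i) (k d' j)) ≤ 1 :=
            pow_le_one₀ (by norm_num) (by norm_num)
          linarith
      · rw [AA_succ, max_eq_right h, Fintype.sum_sigma]
        apply Finset.sum_le_sum
        intro d _
        refine le_trans (mul_le_mul_right (h3 d) _) ?_
        rw [Finset.mul_sum]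
        apply Finset.sum_le_sum
        intro i _
        rw [pow_succ, mul_comm]

end Pool.Agent.Lib.MP_203158_an
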