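import Pool.Agent.Lib.MP_203158_an.Good
import Pool.Agent.Lib.MP_203158_an.Potential

/-!
# MP_203158_an : the potential is infinite almost everywhere in good directions
-/

namespace Pool.Agent.Lib.MP_203158_an

open MeasureTheory Set Metric Filter Topology
open scoped ENNReal NNReal

lemma lint_scale {F : ℝ → ℝ≥0∞} (hF : Measurable F) (c : ℝ) :
    ∫⁻ s, F s = 8 * ∫⁻ t, F (8 * t - c) := by
  have h1 : ∫⁻ t, F (8 * t - c) = ∫⁻ s, F (s - c) ∂(Measure.map (fun t : ℝ => 8 * t) volume) := by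
    rw [lintegral_map (f := fun s => F (s - c)) (hF.comp (measurable_sub_const c))
      (measurable_const_mul 8)]
  rw [h1, Real.map_volume_mul_left (by norm_num), lintegral_smul_measure,
    lintegral_sub_right_eq_self]
  rw [smul_eq_mul, ← mul_assoc]
  have h2 : (8 : ℝ≥0∞) * ENNReal.ofReal |(8 : ℝ)⁻¹| = 1 := by
    rw [abs_of_pos (by norm_num), ENNReal.ofReal_inv_of_pos (by norm_num)]
    norm_num
    exact ENNReal.mul_inv_cancel (by simp) (by simp)
  rw [h2, one_mul]

/-- The dual operator. -/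
noncomputable def BB (u : ℝ) (h : ℝ → ℝ≥0∞) : ℝ → ℝ≥0∞ :=
  fun t => ∑ d : Dg, (1 / 2) * h (8 * t - dig u d)

lemma measurable_BB (u : ℝ) {h : ℝ → ℝ≥0∞} (hh : Measurable h) : Measurable (BB u h) := by
  unfold BB
  fun_prop

lemma measurable_BB_iter (u : ℝ) (n : ℕ) {g : ℝ → ℝ≥0∞} (hg : Measurable g) :
    Measurable ((BB u)^[n] g) := by
  induction n with
  | zero => exact hg
  | succ n ih =>
    rw [Function.iterate_succ_apply']
    exact measurable_BB u ih

lemma duality (u : ℝ) {g h : ℝ → ℝ≥0∞} (hg : Measurable g) (hh : Measurable h) :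
    ∫⁻ s, PP u g s * h s = ∫⁻ t, g t * BB u h t := by
  unfold PP BB
  simp_rw [Finset.sum_mul, Finset.mul_sum]
  rw [lintegral_finsetSum _ (fun d _ => by fun_prop), lintegral_finsetSum _ (fun d _ => by fun_prop)]
  apply Finset.sum_congr rfl
  intro d _
  rw [lint_scale (F := fun s => 1 / 16 * g ((s + dig u d) / 8) * h s) (by fun_prop) (dig u d)]
  rw [← lintegral_const_mul _ (by fun_prop)]
  apply lintegral_congr
  intro t
  have h1 : (8 * t - dig u d + dig u d) / 8 = t := by ring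
  rw [h1]
  have h2 : (8 : ℝ≥0∞) * (1 / 16) = 1 / 2 := by
    rw [show (16 : ℝ≥0∞) = 8 * 2 by norm_num, one_div, one_div,
      ENNReal.mul_inv (by simp) (by simp), ← mul_assoc, ENNReal.mul_inv_cancel (by simp) (by simp),
      one_mul]
  rw [← h2]
  ring

lemma duality_iter (u : ℝ) (n : ℕ) : ∀ {g h : ℝ → ℝ≥0∞}, Measurable g → Measurable h →
    ∫⁻ s, (PP u)^[n] g s * h s = ∫⁻ t, g t * (BB u)^[n] h t := by
  induction n with
  | zero => intro g h _ _; rfl
  | succ n ih =>
    intro g h hg hh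
    rw [Function.iterate_succ_apply', duality u (measurable_PP_iter u n hg) hh,
      ih hg (measurable_BB u hh), Function.iterate_succ_apply]

lemma nu_support {u : ℝ} (hu : 0 ≤ u) : nu u (Icc 0 (LL u))ᶜ = 0 := by
  rw [nu, Measure.map_apply (measurable_pr u) measurableSet_Icc.compl, mu,
    Measure.restrict_apply ((measurable_pr u) measurableSet_Icc.compl)]
  have : pr u ⁻¹' (Icc 0 (LL u))ᶜ ∩ KK = ∅ := by
    ext x
    simp only [mem_inter_iff, mem_preimage, mem_compl_iff, mem_empty_iff_false, iff_false, not_and]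
    intro h hx
    exact h (pr_mem hu hx)
  rw [this, measure_empty]

lemma nu_ae_mem {u : ℝ} (hu : 0 ≤ u) : ∀ᵐ s ∂(nu u), s ∈ Icc 0 (LL u) := by
  rw [ae_iff]
  exact nu_support hu

lemma dig_nonneg {u : ℝ} (hu : 0 ≤ u) (d : Dg) : 0 ≤ dig u d := by
  unfold dig
  positivity

lemma one_le_dig {u : ℝ} (hu : 1 ≤ u) {d : Dg} (hd : d ≠ (0, 0)) : 1 ≤ dig u d := by
  unfold dig
  by_cases h1 : d.1 = 0
  · have h2 : d.2 ≠ 0 := fun h2 => hd (Prod.ext h1 h2)
    have h3 : 1 ≤ (d.2 : ℕ) := by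
      have : (d.2 : ℕ) ≠ 0 := fun h => h2 (Fin.ext h)
      omega
    have h4 : (1 : ℝ) ≤ ((d.2 : ℕ) : ℝ) := by exact_mod_cast h3
    have h5 : (0 : ℝ) ≤ ((d.1 : ℕ) : ℝ) := by positivity
    nlinarith
  · have h3 : 1 ≤ (d.1 : ℕ) := by
      have : (d.1 : ℕ) ≠ 0 := fun h => h1 (Fin.ext h)
      omega
    have h4 : (1 : ℝ) ≤ ((d.1 : ℕ) : ℝ) := by exact_mod_cast h3
    have h5 : (0 : ℝ) ≤ u * ((d.2 : ℕ) : ℝ) := by positivity
    linarith

lemma dig_le {u : ℝ} (hu : 0 ≤ u) (d : Dg) : dig u d ≤ 7 * LL u := by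
  unfold dig LL
  have h1 : ((d.1 : ℕ) : ℝ) ≤ 3 := by
    have : ((d.1 : ℕ)) ≤ 3 := by have := (d.1).isLt; omega
    exact_mod_cast this
  have h2 : ((d.2 : ℕ) : ℝ) ≤ 3 := by
    have : ((d.2 : ℕ)) ≤ 3 := by have := (d.2).isLt; omega
    exact_mod_cast this
  nlinarith

lemma map_mem {u : ℝ} (hu : 0 ≤ u) (d : Dg) {s : ℝ} (hs : s ∈ Icc 0 (LL u)) :
    (s + dig u d) / 8 ∈ Icc 0 (LL u) := by
  have h1 := dig_nonneg hu d
  have h2 := dig_le hu d
  constructor
  · linarith [hs.1]
  · linarith [hs.2]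

lemma map_mem_Ioo {u : ℝ} (hu : 0 ≤ u) (d : Dg) {s : ℝ} (hs : s ∈ Ioo 0 (LL u)) :
    (s + dig u d) / 8 ∈ Ioo 0 (LL u) := by
  have h1 := dig_nonneg hu d
  have h2 := dig_le hu d
  constructor
  · linarith [hs.1]
  · linarith [hs.2]

/-- Small mass near the left edge. -/
lemma edge_measure {v : ℝ} (hv : 1 ≤ v) {C : ℝ≥0} (hC : nu v ≤ C • volume) (l : ℕ) :
    ∀ G : Set ℝ, MeasurableSet G → G ⊆ Iio ((1 / 8) ^ l) →
      nu v G ≤ C * (1 / 2) ^ l * volume G := by
  induction l with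
  | zero =>
    intro G _ _
    have := hC G
    rw [Measure.smul_apply, ENNReal.smul_def, smul_eq_mul] at this
    rw [pow_zero, mul_one]
    exact this
  | succ l ih =>
    intro G hG hGsub
    set G' : Set ℝ := (fun s => (1 / 8) * s) ⁻¹' G with hG'
    have hG'm : MeasurableSet G' := (measurable_const_mul (1 / 8)) hG
    have h1 : nu v G = (1 / 16) * nu v G' := by
      have h2 : nu v G = ∫⁻ s, G.indicator (fun _ => (1 : ℝ≥0∞)) s ∂(nu v) := by
        rw [lintegral_indicator hG, setLIntegral_one]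
      have h3 : nu v G' = ∫⁻ s, G'.indicator (fun _ => (1 : ℝ≥0∞)) s ∂(nu v) := by
        rw [lintegral_indicator hG'm, setLIntegral_one]
      rw [h2, lintegral_nu v (measurable_const.indicator hG), h3,
        ← lintegral_const_mul _ (measurable_const.indicator hG'm)]
      apply lintegral_congr_ae
      filter_upwards [nu_ae_mem (by linarith : (0 : ℝ) ≤ v)] with s hs
      unfold PP
      rw [Finset.sum_eq_single_of_mem ((0, 0) : Dg) (Finset.mem_univ _)]
      · congr 1
        have h4 : (s + dig v (0, 0)) / 8 = 1 / 8 * s := by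
          simp [dig]; ring
        rw [h4]
        rfl
      · intro d _ hd
        rw [indicator_of_notMem, mul_zero]
        intro hmem
        have h5 := hGsub hmem
        have h6 := one_le_dig hv hd
        have h7 : ((1 : ℝ) / 8) ^ (l + 1) ≤ 1 / 8 := by
          rw [pow_succ]
          have : ((1 : ℝ) / 8) ^ l ≤ 1 := pow_le_one₀ (by norm_num) (by norm_num)
          linarith
        have h8 : (s + dig v d) / 8 < (1 / 8) ^ (l + 1) := h5
        linarith [hs.1]
    have h9 : G' ⊆ Iio ((1 / 8) ^ l) := by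
      intro s hs
      have h10 : (1 / 8) * s < (1 / 8) ^ (l + 1) := hGsub hs
      rw [pow_succ] at h10
      simp only [mem_Iio]
      linarith
    have h11 : volume G' = 8 * volume G := by
      rw [hG', Real.volume_preimage_mul_left (by norm_num)]
      congr 1
      rw [abs_of_pos (by norm_num)]
      norm_num
    rw [h1]
    refine (mul_le_mul_right (ih G' hG'm h9) _).trans (le_of_eq ?_)
    rw [h11, pow_succ]
    have h2 : (8 : ℝ≥0∞) * (1 / 16) = 1 / 2 := by
      rw [show (16 : ℝ≥0∞) = 8 * 2 by norm_num, one_div, one_div,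
        ENNReal.mul_inv (by simp) (by simp), ← mul_assoc,
        ENNReal.mul_inv_cancel (by simp) (by simp), one_mul]
    rw [← h2]
    ring

lemma nu_singleton {v : ℝ} {C : ℝ≥0} (hC : nu v ≤ C • volume) (t : ℝ) : nu v {t} = 0 := by
  have := hC {t}
  simpa [Measure.smul_apply] using this

lemma edge_restrict {v : ℝ} (hv : 1 ≤ v) {C : ℝ≥0} (hC : nu v ≤ C • volume) (l : ℕ) :
    (nu v).restrict (Iio ((1 / 8) ^ l)) ≤
      (C * (1 / 2) ^ l : ℝ≥0∞) • volume.restrict (Ioo 0 ((1 / 8) ^ l)) := by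
  rw [Measure.le_iff]
  intro S hS
  rw [Measure.restrict_apply hS, Measure.smul_apply, Measure.restrict_apply hS, smul_eq_mul]
  have h1 : nu v (Iic 0) = 0 := by
    have h2 : Iic (0 : ℝ) ⊆ (Icc 0 (LL v))ᶜ ∪ {0} := by
      intro s hs
      rcases eq_or_lt_of_le (show s ≤ 0 from hs) with h | h
      · right; exact h
      · left
        intro h3
        linarith [h3.1]
    refine measure_mono_null h2 ?_
    rw [measure_union_null_iff]
    exact ⟨nu_support (by linarith), nu_singleton hC 0⟩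
  have h3 : S ∩ Iio ((1 / 8) ^ l) ⊆ (S ∩ Ioo 0 ((1 / 8) ^ l)) ∪ Iic 0 := by
    rintro s ⟨hs1, hs2⟩
    rcases le_or_gt s 0 with h | h
    · right; exact h
    · left; exact ⟨hs1, h, hs2⟩
  refine (measure_mono h3).trans ((measure_union_le _ _).trans ?_)
  rw [h1, add_zero]
  exact edge_measure hv hC l _ (hS.inter measurableSet_Ioo) (fun s hs => hs.2.2)

end Pool.Agent.Lib.MP_203158_an
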