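import Pool.Agent.Lib.MP_203158_an.Pack

/-!
# MP_203158_an : assembling the answer
-/

namespace Pool.Agent.Lib.MP_203158_an

open MeasureTheory Set Metric Filter Topology
open scoped ENNReal NNReal

/-- The normalising factor. -/
noncomputable def cf (u : ℝ) : ℝ := Real.sqrt (1 + u ^ 2)

lemma cf_pos (u : ℝ) : 0 < cf u := Real.sqrt_pos.2 (by positivity)

lemma cf_sq (u : ℝ) : cf u ^ 2 = 1 + u ^ 2 := Real.sq_sqrt (by positivity)

/-- The unit vector. -/
noncomputable def ev (u : ℝ) : E2 := (cf u)⁻¹ • vec 1 u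

lemma norm_ev (u : ℝ) : ‖ev u‖ = 1 := by
  have h1 : ‖vec 1 u‖ = cf u := by
    rw [EuclideanSpace.norm_eq, Fin.sum_univ_two, vec_zero, vec_one, cf]
    congr 1
    rw [Real.norm_eq_abs, Real.norm_eq_abs, sq_abs, sq_abs, one_pow]
  rw [ev, norm_smul, h1, norm_inv, Real.norm_of_nonneg (cf_pos u).le,
    inv_mul_cancel₀ (cf_pos u).ne']

lemma inner_ev (u : ℝ) (x : E2) : inner ℝ (ev u) x = (cf u)⁻¹ * pr u x := by
  rw [ev, inner_smul_left, PiLp.inner_apply, Fin.sum_univ_two, vec_zero, vec_one, pr]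
  simp
  ring_nf
  tauto

lemma inner_image (u : ℝ) : (fun x => inner ℝ (ev u) x) '' KK = (fun t => (cf u)⁻¹ * t) '' (pr u '' KK) := by
  rw [image_image]
  congr 1
  funext x
  exact inner_ev u x

/-- The exceptional set of the good slices. -/
def NN (u : ℝ) : Set ℝ :=
  ⋃ (n : ℕ) (a : ℕ) (b : ℕ), {t | 8 ^ n * t - a - u * b ∈ DD u ∪ {0, LL u}}

lemma volume_NN {u : ℝ} (hu : volume (DD u) = 0) : volume (NN u) = 0 := by
  unfold NN
  simp only [measure_iUnion_null_iff]
  intro n a b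
  have h1 : {t : ℝ | 8 ^ n * t - a - u * b ∈ DD u ∪ {0, LL u}} =
      (fun t => 8 ^ n * t) ⁻¹' ((fun t => t + (-(a + u * b))) ⁻¹' (DD u ∪ {0, LL u})) := by
    ext t
    simp only [mem_preimage]
    rw [show (8 : ℝ) ^ n * t + -(a + u * b) = 8 ^ n * t - a - u * b by ring]
    rfl
  rw [h1, Real.volume_preimage_mul_left (by positivity), measure_preimage_add_right]
  have h2 : volume (DD u ∪ {0, LL u}) = 0 := by
    rw [measure_union_null_iff]
    exact ⟨hu, (Set.toFinite _).measure_zero _⟩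
  rw [h2, mul_zero]

lemma good_of_notMem {u t : ℝ} (ht : t ∉ NN u) (n a b : ℕ)
    (h : 8 ^ n * t - a - u * b ∈ Icc 0 (LL u)) : AI u (8 ^ n * t - a - u * b) = ∞ := by
  unfold NN at ht
  simp only [mem_iUnion, not_exists] at ht
  have h1 := ht n a b
  have h2 : ¬ (8 ^ n * t - a - u * b ∈ DD u ∪ {0, LL u}) := h1
  rw [mem_union, not_or] at h2
  obtain ⟨h3, h4⟩ := h2
  by_contra hne
  apply h3
  refine ⟨⟨lt_of_le_of_ne h.1 ?_, lt_of_le_of_ne h.2 ?_⟩, hne⟩
  · intro h5
    exact h4 (Or.inl h5.symm)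
  · intro h5
    exact h4 (Or.inr h5)

theorem main :
    ∃ (ι : Type) (_ : Fintype ι) (ρ : ι → ℝ) (w : ι → EuclideanSpace ℝ (Fin 2))
      (K : Set (EuclideanSpace ℝ (Fin 2))) (s : ℝ) (e : EuclideanSpace ℝ (Fin 2)),
      (∀ j, 0 < ρ j ∧ ρ j < 1) ∧
      IsCompact K ∧ K.Nonempty ∧
      K = ⋃ j, (fun x => ρ j • x + w j) '' K ∧
      (∀ i j, i ≠ j →
        Disjoint ((fun x => ρ i • x + w i) '' K) ((fun x => ρ j • x + w j) '' K)) ∧
      1 < s ∧ dimH K = ENNReal.ofReal s ∧ 0 < μH[s] K ∧ μH[s] K < ∞ ∧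
      ‖e‖ = 1 ∧
      0 < volume ((fun x => inner ℝ e x) '' K) ∧
      (Measure.map (fun x => inner ℝ e x) ((μH[s]).restrict K)) ⟂ₘ volume ∧
      ∀ᵐ t : ℝ, t ∈ (fun x => inner ℝ e x) '' K →
        packingMeasure (s - 1) (K ∩ (fun x => inner ℝ e x) ⁻¹' {t}) = ∞ := by
  obtain ⟨u, hu2, hu3, hu⟩ := exists_generic
  have hsing : nu u ⟂ₘ volume := singular_of_Gset (fun n => (hu n).1)
  have hDD : volume (DD u) = 0 := DD_of_Hset (fun n => (hu n).2)
  have hcf := cf_pos u
  have himg : (fun x => inner ℝ (ev u) x) '' KK = (fun t => (cf u)⁻¹ * t) '' Icc 0 (LL u) := by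
    rw [inner_image, pr_image hu2.le hu3.le]
  refine ⟨Dg, inferInstance, fun _ => 1 / 8, fun d => (1 / 8 : ℝ) • vec (d.1 : ℕ) (d.2 : ℕ), KK,
    4 / 3, ev u, fun _ => by norm_num, isCompact_KK, KK_nonempty, KK_eq,
    fun i j hij => psi_disjoint hij, by norm_num, dimH_KK, haus_pos,
    lt_of_le_of_lt haus_finite (by simp), norm_ev u, ?_, ?_, ?_⟩
  · rw [himg]
    have hL : 0 < LL u := by unfold LL; linarith
    have h1 : Ioo 0 ((cf u)⁻¹ * LL u) ⊆ (fun t => (cf u)⁻¹ * t) '' Icc 0 (LL u) := by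
      intro t ht
      refine ⟨cf u * t, ⟨?_, ?_⟩, ?_⟩
      · have := ht.1
        positivity
      · have h2 := ht.2
        rw [inv_mul_eq_div, lt_div_iff₀ hcf] at h2
        linarith
      · simp only
        rw [← mul_assoc, inv_mul_cancel₀ hcf.ne', one_mul]
    refine lt_of_lt_of_le ?_ (measure_mono h1)
    rw [Real.volume_Ioo, sub_zero]
    simp only [ENNReal.ofReal_pos]
    positivity
  · obtain ⟨N, hN, hN1, hN2⟩ := hsing
    have hg : Measurable (fun t : ℝ => cf u * t) := by fun_prop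
    have hi : Measurable (fun x : E2 => inner ℝ (ev u) x) := by
      have : (fun x : E2 => inner ℝ (ev u) x) = fun x => (cf u)⁻¹ * pr u x := by
        funext x
        exact inner_ev u x
      rw [this]
      exact (measurable_pr u).const_mul _
    refine ⟨(fun t => cf u * t) ⁻¹' N, hg hN, ?_, ?_⟩
    · rw [Measure.map_apply hi (hg hN)]
      rw [nu, Measure.map_apply (measurable_pr u) hN] at hN1
      have : (fun x : E2 => inner ℝ (ev u) x) ⁻¹' ((fun t => cf u * t) ⁻¹' N) = pr u ⁻¹' N := by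
        ext x
        simp only [mem_preimage, inner_ev]
        rw [← mul_assoc, mul_inv_cancel₀ hcf.ne', one_mul]
      rw [this]
      exact hN1
    · rw [← preimage_compl, Real.volume_preimage_mul_left hcf.ne', hN2, mul_zero]
  · have hnull : volume ((fun t : ℝ => cf u * t) ⁻¹' (NN u)) = 0 := by
      rw [Real.volume_preimage_mul_left hcf.ne', volume_NN hDD, mul_zero]
    have hae : ∀ᵐ t : ℝ, cf u * t ∉ NN u := by
      rw [ae_iff]
      simp only [not_not]
      exact hnull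
    filter_upwards [hae] with t ht htK
    rw [himg] at htK
    obtain ⟨t', ht', htt'⟩ := htK
    have htt : cf u * t = t' := by
      rw [← htt']
      simp only
      rw [← mul_assoc, mul_inv_cancel₀ hcf.ne', one_mul]
    have hset : (fun x : E2 => inner ℝ (ev u) x) ⁻¹' {t} = pr u ⁻¹' {t'} := by
      ext x
      simp only [mem_preimage, mem_singleton_iff, inner_ev]
      rw [← htt, inv_mul_eq_div, div_eq_iff hcf.ne', mul_comm]
    rw [hset, show (4 / 3 : ℝ) - 1 = 1 / 3 by norm_num]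
    rw [htt] at ht
    exact packingMeasure_top hu2.le hu3.le ht' (fun n a b h => good_of_notMem ht n a b h)

end Pool.Agent.Lib.MP_203158_an
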