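import Pool.Agent.Lib.MP_203158_an.Nu

/-!
# MP_203158_an : bounded density in the good rational directions
-/

namespace Pool.Agent.Lib.MP_203158_an

open MeasureTheory Set Metric Filter Topology
open scoped ENNReal NNReal

lemma iter_bound (k m : ℤ) (hk : 0 ≤ k) (v : ℝ) (hv : v * (8 * k + 1) = 8 * m + 4)
    (g : ℝ → ℝ≥0∞) (n : ℕ) : ∀ s : ℝ,
    (PP v)^[n] g s ≤ (1 / 8) ^ n * ∑' N : ℤ, g ((1 / 8) ^ n * (s + (N : ℝ) / (8 * k + 1))) := by
  have hq : (0 : ℝ) < 8 * k + 1 := by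
    have : (0 : ℝ) ≤ k := by exact_mod_cast hk
    linarith
  induction n with
  | zero =>
    intro s
    simp only [Function.iterate_zero, id, pow_zero, one_mul]
    refine le_trans ?_ (ENNReal.le_tsum (0 : ℤ))
    simp
  | succ n ih =>
    intro s
    rw [Function.iterate_succ_apply']
    unfold PP
    set G : ℤ → ℝ≥0∞ := fun N => g ((1 / 8) ^ (n + 1) * (s + (N : ℝ) / (8 * k + 1))) with hG
    have h1 : ∀ d : Dg, (1 / 16) * (PP v)^[n] g ((s + dig v d) / 8)
        ≤ (1 / 16) * ((1 / 8) ^ n *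
          ∑' N : ℤ, G ((8 * k + 1) * (d.1 : ℕ) + (8 * m + 4) * (d.2 : ℕ) + 8 * N)) := by
      intro d
      refine mul_le_mul_right ((ih _).trans (le_of_eq ?_)) _
      congr 1
      apply tsum_congr
      intro N
      rw [hG]
      simp only
      congr 1
      push_cast
      unfold dig
      have h2 : ((8 * (k : ℝ) + 1) * (d.1 : ℕ) + (8 * m + 4) * (d.2 : ℕ) + 8 * N) / (8 * k + 1)
          = ((d.1 : ℕ) : ℝ) + v * ((d.2 : ℕ) : ℝ) + 8 * (N / (8 * k + 1)) := by
        rw [← hv]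
        field_simp
      rw [h2, pow_succ]
      ring
    refine (Finset.sum_le_sum (fun d _ => h1 d)).trans ?_
    rw [← Finset.mul_sum, ← Finset.mul_sum, two_to_one]
    apply le_of_eq
    rw [pow_succ]
    have h3 : (1 / 16 : ℝ≥0∞) * 2 = 1 / 8 := by
      rw [show (16 : ℝ≥0∞) = 8 * 2 by norm_num, one_div, one_div,
        ENNReal.mul_inv (by simp) (by simp), mul_assoc, ENNReal.inv_mul_cancel (by simp) (by simp),
        mul_one]
    calc (1 / 16 : ℝ≥0∞) * ((1 / 8) ^ n * (2 * ∑' N : ℤ, G N))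
        = (1 / 8) ^ n * ((1 / 16) * 2) * ∑' N : ℤ, G N := by ring
      _ = _ := by rw [h3]

lemma count_Ioc (α β : ℝ) (h : α ≤ β) :
    ∑' N : ℤ, (Ioc α β).indicator (fun _ => (1 : ℝ≥0∞)) (N : ℝ) ≤ ENNReal.ofReal (β - α + 1) := by
  have h1 : ∀ N : ℤ, (Ioc α β).indicator (fun _ => (1 : ℝ≥0∞)) (N : ℝ)
      = (Finset.Ioc ⌊α⌋ ⌊β⌋ : Set ℤ).indicator (fun _ => (1 : ℝ≥0∞)) N := by
    intro N
    have h2 : (N : ℝ) ∈ Ioc α β ↔ N ∈ (Finset.Ioc ⌊α⌋ ⌊β⌋ : Set ℤ) := by
      simp only [mem_Ioc, Finset.coe_Ioc, Int.floor_lt, Int.le_floor]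
    by_cases hN : (N : ℝ) ∈ Ioc α β
    · rw [indicator_of_mem hN, indicator_of_mem (h2.1 hN)]
    · rw [indicator_of_notMem hN, indicator_of_notMem (fun h => hN (h2.2 h))]
  simp_rw [h1]
  rw [← tsum_subtype, Finset.tsum_subtype' (Finset.Ioc ⌊α⌋ ⌊β⌋) (fun _ => (1 : ℝ≥0∞))]
  rw [Finset.sum_const, nsmul_eq_mul, mul_one, Int.card_Ioc]
  rw [← ENNReal.ofReal_natCast]
  apply ENNReal.ofReal_le_ofReal
  have h3 : ⌊α⌋ ≤ ⌊β⌋ := Int.floor_le_floor h
  have h4 : (((⌊β⌋ - ⌊α⌋).toNat : ℕ) : ℝ) = (⌊β⌋ : ℝ) - ⌊α⌋ := by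
    have : (((⌊β⌋ - ⌊α⌋).toNat : ℕ) : ℤ) = ⌊β⌋ - ⌊α⌋ := Int.toNat_of_nonneg (by omega)
    exact_mod_cast this
  rw [h4]
  have h5 := Int.floor_le β
  have h6 := Int.lt_floor_add_one α
  linarith

lemma nu_Ioc_good (k m : ℤ) (hk : 0 ≤ k) (v : ℝ) (hv : v * (8 * k + 1) = 8 * m + 4)
    (a b : ℝ) (hab : a ≤ b) :
    nu v (Ioc a b) ≤ ENNReal.ofReal ((8 * k + 1) * (b - a)) * mu univ := by
  have hq : (0 : ℝ) < 8 * k + 1 := by
    have : (0 : ℝ) ≤ k := by exact_mod_cast hk
    linarith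
  have hmeas : Measurable ((Ioc a b).indicator (fun _ => (1 : ℝ≥0∞))) :=
    measurable_const.indicator measurableSet_Ioc
  have h1 : ∀ n : ℕ, nu v (Ioc a b) ≤
      ENNReal.ofReal ((8 * k + 1) * (b - a) + (1 / 8) ^ n) * mu univ := by
    intro n
    have h2 : nu v (Ioc a b) = ∫⁻ s, (Ioc a b).indicator (fun _ => (1 : ℝ≥0∞)) s ∂(nu v) := by
      rw [lintegral_indicator measurableSet_Ioc, setLIntegral_one]
    rw [h2, lintegral_nu_iter v n hmeas, ← nu_univ v]
    have h3 : ∀ s : ℝ, (PP v)^[n] ((Ioc a b).indicator (fun _ => (1 : ℝ≥0∞))) s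
        ≤ ENNReal.ofReal ((8 * k + 1) * (b - a) + (1 / 8) ^ n) := by
      intro s
      refine (iter_bound k m hk v hv _ n s).trans ?_
      have h4 : ∀ N : ℤ, (Ioc a b).indicator (fun _ => (1 : ℝ≥0∞))
            ((1 / 8) ^ n * (s + (N : ℝ) / (8 * k + 1)))
          = (Ioc ((8 * k + 1) * (8 ^ n * a - s)) ((8 * k + 1) * (8 ^ n * b - s))).indicator
            (fun _ => (1 : ℝ≥0∞)) (N : ℝ) := by
        intro N
        have h8 : (0 : ℝ) < 8 ^ n := by positivity
        have h9 : (1 / 8 : ℝ) ^ n * 8 ^ n = 1 := by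
          rw [← mul_pow]; norm_num
        have h5 : (1 / 8 : ℝ) ^ n * (s + (N : ℝ) / (8 * k + 1)) ∈ Ioc a b ↔
            (N : ℝ) ∈ Ioc ((8 * k + 1) * (8 ^ n * a - s)) ((8 * k + 1) * (8 ^ n * b - s)) := by
          have h6 : ∀ c : ℝ, (1 / 8 : ℝ) ^ n * (s + (N : ℝ) / (8 * k + 1)) - c
              = (1 / 8 : ℝ) ^ n / (8 * k + 1) * (N - (8 * k + 1) * (8 ^ n * c - s)) := by
            intro c
            field_simp
            linear_combination ((8 * (k : ℝ) + 1) * c) * h9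
          have h7 : (0 : ℝ) < (1 / 8 : ℝ) ^ n / (8 * k + 1) := by positivity
          constructor
          · rintro ⟨hA, hB⟩
            constructor
            · have := h6 a
              have h10 : 0 < (1 / 8 : ℝ) ^ n / (8 * k + 1) * (N - (8 * k + 1) * (8 ^ n * a - s)) := by
                rw [← this]; linarith
              have := (mul_pos_iff_of_pos_left h7).1 h10
              linarith
            · have := h6 b
              have h10 : (1 / 8 : ℝ) ^ n / (8 * k + 1) * (N - (8 * k + 1) * (8 ^ n * b - s)) ≤ 0 := by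
                rw [← this]; linarith
              have := nonpos_of_mul_nonpos_right h10 h7
              linarith
          · rintro ⟨hA, hB⟩
            constructor
            · have := h6 a
              have h10 : 0 < (1 / 8 : ℝ) ^ n / (8 * k + 1) * (N - (8 * k + 1) * (8 ^ n * a - s)) :=
                mul_pos h7 (by linarith)
              linarith
            · have := h6 b
              have h10 : (1 / 8 : ℝ) ^ n / (8 * k + 1) * (N - (8 * k + 1) * (8 ^ n * b - s)) ≤ 0 :=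
                mul_nonpos_of_nonneg_of_nonpos h7.le (by linarith)
              linarith
        by_cases hN : (N : ℝ) ∈ Ioc ((8 * k + 1) * (8 ^ n * a - s)) ((8 * k + 1) * (8 ^ n * b - s))
        · rw [indicator_of_mem hN, indicator_of_mem (h5.2 hN)]
        · rw [indicator_of_notMem hN, indicator_of_notMem (fun h => hN (h5.1 h))]
      simp_rw [h4]
      refine (mul_le_mul_right (count_Ioc _ _ (by
        apply mul_le_mul_of_nonneg_left _ hq.le
        have : (0 : ℝ) < 8 ^ n := by positivity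
        nlinarith)) _).trans ?_
      have h10 : ((1 / 8 : ℝ≥0∞) ^ n) = ENNReal.ofReal ((1 / 8) ^ n) := by
        rw [ENNReal.ofReal_pow (by norm_num), ENNReal.ofReal_div_of_pos (by norm_num)]
        simp
      rw [h10, ← ENNReal.ofReal_mul (by positivity)]
      apply ENNReal.ofReal_le_ofReal
      have h9 : (1 / 8 : ℝ) ^ n * 8 ^ n = 1 := by
        rw [← mul_pow]; norm_num
      have h11 : (1 / 8 : ℝ) ^ n * ((8 * k + 1) * (8 ^ n * b - s) - (8 * k + 1) * (8 ^ n * a - s) + 1)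
          = (8 * k + 1) * (b - a) * ((1 / 8 : ℝ) ^ n * 8 ^ n) + (1 / 8) ^ n := by ring
      rw [h11, h9, mul_one]
    refine (lintegral_mono h3).trans ?_
    rw [lintegral_const]
  have h12 : Tendsto (fun n : ℕ => ENNReal.ofReal ((8 * k + 1) * (b - a) + (1 / 8) ^ n) * mu univ)
      atTop (𝓝 (ENNReal.ofReal ((8 * k + 1) * (b - a) + 0) * mu univ)) := by
    apply ENNReal.Tendsto.mul_const _ (Or.inr (measure_ne_top _ _))
    apply ENNReal.tendsto_ofReal
    exact tendsto_const_nhds.add (tendsto_pow_atTop_nhds_zero_of_lt_one (by norm_num) (by norm_num))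
  rw [add_zero] at h12
  exact ge_of_tendsto' h12 h1

/-- A direction is good if the projected measure has a bounded density. -/
def GoodDir (v : ℝ) : Prop := ∃ C : ℝ≥0, nu v ≤ C • volume

lemma goodDir_of (k m : ℤ) (hk : 0 ≤ k) (v : ℝ) (hv : v * (8 * k + 1) = 8 * m + 4) :
    GoodDir v := by
  have hq : (0 : ℝ) < 8 * k + 1 := by
    have : (0 : ℝ) ≤ k := by exact_mod_cast hk
    linarith
  refine ⟨(8 * (k : ℝ) + 1).toNNReal * (mu univ).toNNReal, le_of_Ioc _ _ ?_⟩
  intro a b hab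
  refine (nu_Ioc_good k m hk v hv a b hab).trans (le_of_eq ?_)
  rw [ENNReal.coe_mul, ENNReal.coe_toNNReal (measure_ne_top _ _), ENNReal.ofReal_mul hq.le]
  rw [ENNReal.ofReal]
  ring

end Pool.Agent.Lib.MP_203158_an
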