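import Pool.Agent.Lib.MP_203158_an.Edge

/-!
# MP_203158_an : the potential is infinite almost everywhere in good directions, II
-/

namespace Pool.Agent.Lib.MP_203158_an

open MeasureTheory Set Metric Filter Topology
open scoped ENNReal NNReal

lemma sum_dg (lam : ℝ) : ∑ d : Dg, (1 / 16 : ℝ) * (if d = (0, 0) then lam else 1) = (lam + 15) / 16 := by
  have h1 : ∀ d : Dg, (1 / 16 : ℝ) * (if d = (0, 0) then lam else 1)
      = 1 / 16 + (if d = (0, 0) then (lam - 1) / 16 else 0) := by
    intro d
    split_ifs <;> ring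
  simp_rw [h1]
  rw [Finset.sum_add_distrib, Finset.sum_ite_eq' Finset.univ ((0, 0) : Dg)
    (fun _ => (lam - 1) / 16), if_pos (Finset.mem_univ _), Finset.sum_const, Finset.card_univ,
    Fintype.card_prod, Fintype.card_fin]
  norm_num
  ring

lemma PP_contract {u : ℝ} (hu : 0 ≤ u) (b : ℝ≥0∞) (j : ℕ) : ∀ (lam : ℝ), 0 ≤ lam → lam ≤ 1 →
    ∀ (h : ℝ → ℝ≥0∞), (∀ s ∈ Icc 0 (LL u), h s ≤ b) →
    (∀ s ∈ Icc 0 (LL u * (1 / 8) ^ j), h s ≤ ENNReal.ofReal lam * b) →
    ∀ s ∈ Icc 0 (LL u), (PP u)^[j] h s ≤ ENNReal.ofReal (1 - (1 / 16) ^ j * (1 - lam)) * b := by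
  induction j with
  | zero =>
    intro lam h0 h1 h _ hb s hs
    simp only [pow_zero, mul_one] at hb
    have := hb s hs
    simp only [Function.iterate_zero, id, pow_zero, one_mul]
    rwa [show 1 - (1 - lam) = lam by ring]
  | succ j ih =>
    intro lam h0 h1 h hb hb' s hs
    rw [Function.iterate_succ_apply]
    have h2 : ∀ s ∈ Icc 0 (LL u), PP u h s ≤ b := by
      intro s hs
      unfold PP
      calc ∑ d : Dg, (1 / 16) * h ((s + dig u d) / 8) ≤ ∑ d : Dg, (1 / 16 : ℝ≥0∞) * b := by
            apply Finset.sum_le_sum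
            intro d _
            exact mul_le_mul_right (hb _ (map_mem hu d hs)) _
        _ = b := by
            rw [Finset.sum_const, Finset.card_univ, Fintype.card_prod, Fintype.card_fin,
              nsmul_eq_mul, ← mul_assoc]
            have h5 : (((4 * 4 : ℕ) : ℝ≥0∞)) * (1 / 16) = 1 := by
              norm_num
              exact ENNReal.mul_inv_cancel (by simp) (by simp)
            rw [h5, one_mul]
    have h3 : ∀ s ∈ Icc 0 (LL u * (1 / 8) ^ j), PP u h s ≤ ENNReal.ofReal ((lam + 15) / 16) * b := by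
      intro s hs
      have hL : 0 ≤ LL u := by unfold LL; linarith
      have hsL : s ∈ Icc 0 (LL u) := by
        refine ⟨hs.1, hs.2.trans ?_⟩
        have : (1 / 8 : ℝ) ^ j ≤ 1 := pow_le_one₀ (by norm_num) (by norm_num)
        nlinarith
      unfold PP
      calc ∑ d : Dg, (1 / 16) * h ((s + dig u d) / 8)
          ≤ ∑ d : Dg, ENNReal.ofReal ((1 / 16 : ℝ) * (if d = (0, 0) then lam else 1)) * b := by
            apply Finset.sum_le_sum
            intro d _
            rw [ENNReal.ofReal_mul (by norm_num), mul_assoc]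
            have h16 : ENNReal.ofReal (1 / 16 : ℝ) = 1 / 16 := by
              rw [ENNReal.ofReal_div_of_pos (by norm_num)]
              simp
            rw [h16]
            apply mul_le_mul_right
            by_cases hd : d = (0, 0)
            · rw [if_pos hd]
              apply hb'
              have h4 : dig u d = 0 := by rw [hd]; simp [dig]
              rw [h4, add_zero]
              constructor
              · linarith [hs.1]
              · rw [pow_succ]
                linarith [hs.2]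
            · rw [if_neg hd, ENNReal.ofReal_one, one_mul]
              exact hb _ (map_mem hu d hsL)
        _ = _ := by
            rw [← Finset.sum_mul, ← ENNReal.ofReal_sum_of_nonneg, sum_dg]
            intro d _
            split_ifs <;> positivity
    have h4 := ih ((lam + 15) / 16) (by linarith) (by linarith) (PP u h) h2 h3 s hs
    refine h4.trans (le_of_eq ?_)
    congr 2
    rw [pow_succ]
    ring

/-- The truncated first hitting sums. -/
noncomputable def TT (v : ℝ) (l : ℕ) : ℕ → ℝ → ℝ≥0∞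
  | 0 => fun _ => 0
  | n + 1 => fun t => (Ioo 0 ((1 / 8) ^ l)).indicator (fun _ => 1) t +
      (Ici ((1 / 8) ^ l)).indicator ((BB v)^[l + 1] (TT v l n)) t

lemma TT_succ (v : ℝ) (l n : ℕ) (t : ℝ) : TT v l (n + 1) t =
    (Ioo 0 ((1 / 8) ^ l)).indicator (fun _ => 1) t +
      (Ici ((1 / 8) ^ l)).indicator ((BB v)^[l + 1] (TT v l n)) t := rfl

lemma measurable_TT (v : ℝ) (l n : ℕ) : Measurable (TT v l n) := by
  induction n with
  | zero => exact measurable_const
  | succ n ih =>
    unfold TT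
    exact (measurable_const.indicator measurableSet_Ioo).add
      ((measurable_BB_iter v (l + 1) ih).indicator measurableSet_Ici)

lemma BB_mono (v : ℝ) {f g : ℝ → ℝ≥0∞} (h : f ≤ g) : BB v f ≤ BB v g := by
  intro t
  unfold BB
  apply Finset.sum_le_sum
  intro d _
  exact mul_le_mul_right (h _) _

lemma BB_AI (v : ℝ) (n : ℕ) : (BB v)^[n] (AI v) ≤ AI v := by
  induction n with
  | zero => exact le_rfl
  | succ n ih =>
    rw [Function.iterate_succ_apply']
    exact (BB_mono v ih).trans (fun t => AI_super v t)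

lemma BB_iter_mono (v : ℝ) (n : ℕ) : ∀ {f g : ℝ → ℝ≥0∞}, f ≤ g → (BB v)^[n] f ≤ (BB v)^[n] g := by
  induction n with
  | zero => intro f g h; exact h
  | succ n ih =>
    intro f g h
    rw [Function.iterate_succ_apply, Function.iterate_succ_apply]
    exact ih (BB_mono v h)

lemma TT_le_AI {v : ℝ} (hv : 2 ≤ v) (l n : ℕ) : TT v l n ≤ AI v := by
  induction n with
  | zero => intro t; exact zero_le
  | succ n ih =>
    intro t
    unfold TT
    have hL : (1 / 8 : ℝ) ^ l ≤ LL v := by
      have h1 : (1 / 8 : ℝ) ^ l ≤ 1 := pow_le_one₀ (by norm_num) (by norm_num)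
      unfold LL
      linarith
    by_cases h1 : t ∈ Ioo 0 ((1 / 8 : ℝ) ^ l)
    · rw [indicator_of_mem h1, indicator_of_notMem (by
        intro h2
        exact absurd h1.2 (not_lt.2 h2)), add_zero]
      exact one_le_AI ⟨h1.1, lt_of_lt_of_le h1.2 hL⟩
    · rw [indicator_of_notMem h1, zero_add]
      by_cases h2 : t ∈ Ici ((1 / 8 : ℝ) ^ l)
      · rw [indicator_of_mem h2]
        exact ((BB_iter_mono v (l + 1) ih).trans (BB_AI v (l + 1))) t
      · rw [indicator_of_notMem h2]
        exact zero_le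

/-- The main recursion. -/
lemma main_rec {v : ℝ} (hv2 : 2 ≤ v) (hv3 : v ≤ 3) {C : ℝ≥0} (hC : nu v ≤ C • volume) (l n : ℕ) :
    ∀ (g : ℝ → ℝ≥0∞) (b : ℝ≥0∞), Measurable g → (∀ s ∈ Icc 0 (LL v), g s ≤ b) →
    ∫⁻ s, g s ∂(nu v) ≤ (C * (1 / 2) ^ l : ℝ≥0∞) * (∫⁻ t, g t * TT v l n t) +
      ENNReal.ofReal (1 - (1 / 16) ^ (l + 1)) ^ n * b * mu univ := by
  have hv0 : (0 : ℝ) ≤ v := by linarith
  induction n with
  | zero =>
    intro g b hg hgb
    refine le_trans ?_ le_add_self
    rw [pow_zero, one_mul]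
    calc ∫⁻ s, g s ∂(nu v) ≤ ∫⁻ s, b ∂(nu v) := by
          apply lintegral_mono_ae
          filter_upwards [nu_ae_mem hv0] with s hs
          exact hgb s hs
      _ = b * mu univ := by rw [lintegral_const, nu_univ]
  | succ n ih =>
    intro g b hg hgb
    set E : Set ℝ := Iio ((1 / 8) ^ l) with hE
    set c : ℝ≥0∞ := (C * (1 / 2) ^ l : ℝ≥0∞) with hc
    have hEm : MeasurableSet E := measurableSet_Iio
    set g1 : ℝ → ℝ≥0∞ := Eᶜ.indicator g with hg1
    have hg1m : Measurable g1 := hg.indicator hEm.compl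
    have hEc : Eᶜ = Ici ((1 / 8 : ℝ) ^ l) := by
      rw [hE, compl_Iio]
    have h1 : ∫⁻ s, g s ∂(nu v) = (∫⁻ s in E, g s ∂(nu v)) + ∫⁻ s, g1 s ∂(nu v) := by
      rw [hg1, lintegral_indicator hEm.compl, lintegral_add_compl _ hEm]
    have h2 : ∫⁻ s in E, g s ∂(nu v) ≤ c * ∫⁻ t in Ioo 0 ((1 / 8) ^ l), g t := by
      refine (lintegral_mono' (edge_restrict (by linarith) hC l) le_rfl).trans (le_of_eq ?_)
      rw [lintegral_smul_measure, smul_eq_mul]
    have h3 : ∀ s ∈ Icc 0 (LL v), (PP v)^[l + 1] g1 s ≤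
        ENNReal.ofReal (1 - (1 / 16) ^ (l + 1)) * b := by
      intro s hs
      have h4 := PP_contract hv0 b (l + 1) 0 le_rfl zero_le_one g1 (by
          intro s hs
          rw [hg1]
          exact (indicator_le_self _ _ _).trans (hgb s hs)) (by
          intro s hs
          have h5 : s ∉ Eᶜ := by
            intro h6
            rw [hEc] at h6
            have h7 : (1 / 8 : ℝ) ^ l ≤ s := h6
            have h8 : s ≤ LL v * (1 / 8) ^ (l + 1) := hs.2
            have h9 : LL v ≤ 12 / 7 := by unfold LL; linarith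
            have h10 : (0 : ℝ) < (1 / 8) ^ l := by positivity
            rw [pow_succ] at h8
            nlinarith
          rw [hg1, indicator_of_notMem h5]
          exact zero_le) s hs
      rw [sub_zero, mul_one] at h4
      exact h4
    have h4 := ih ((PP v)^[l + 1] g1) _ (measurable_PP_iter v (l + 1) hg1m) h3
    rw [duality_iter v (l + 1) hg1m (measurable_TT v l n), ← lintegral_nu_iter v (l + 1) hg1m] at h4
    rw [h1]
    refine (add_le_add h2 h4).trans (le_of_eq ?_)
    rw [← add_assoc, ← mul_add, pow_succ]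
    have h5 : (∫⁻ t in Ioo 0 ((1 / 8) ^ l), g t) + ∫⁻ t, g1 t * (BB v)^[l + 1] (TT v l n) t
        = ∫⁻ t, g t * TT v l (n + 1) t := by
      rw [← lintegral_indicator measurableSet_Ioo, ← lintegral_add_left
        (hg.indicator measurableSet_Ioo)]
      apply lintegral_congr
      intro t
      rw [TT_succ, mul_add]
      congr 1
      · by_cases h6 : t ∈ Ioo 0 ((1 / 8 : ℝ) ^ l)
        · rw [indicator_of_mem h6, indicator_of_mem h6, mul_one]
        · rw [indicator_of_notMem h6, indicator_of_notMem h6, mul_zero]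
      · rw [hg1, hEc]
        by_cases h6 : t ∈ Ici ((1 / 8 : ℝ) ^ l)
        · rw [indicator_of_mem h6, indicator_of_mem h6]
        · rw [indicator_of_notMem h6, indicator_of_notMem h6, mul_zero, zero_mul]
    rw [h5]
    ring

lemma nu_le_AI {v : ℝ} (hv2 : 2 ≤ v) (hv3 : v ≤ 3) {C : ℝ≥0} (hC : nu v ≤ C • volume) (l : ℕ)
    {F : Set ℝ} (hF : MeasurableSet F) :
    nu v F ≤ (C * (1 / 2) ^ l : ℝ≥0∞) * ∫⁻ t in F, AI v t := by
  have h1 : ∀ n : ℕ, nu v F ≤ (C * (1 / 2) ^ l : ℝ≥0∞) * (∫⁻ t in F, AI v t) +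
      ENNReal.ofReal (1 - (1 / 16) ^ (l + 1)) ^ n * 1 * mu univ := by
    intro n
    have h2 : nu v F = ∫⁻ s, F.indicator (fun _ => (1 : ℝ≥0∞)) s ∂(nu v) := by
      rw [lintegral_indicator hF, setLIntegral_one]
    rw [h2]
    refine (main_rec hv2 hv3 hC l n _ 1 (measurable_const.indicator hF) ?_).trans ?_
    · intro s _
      exact indicator_le_self' (fun _ _ => zero_le) s
    · refine add_le_add (mul_le_mul_right ?_ _) le_rfl
      rw [← lintegral_indicator hF]
      apply lintegral_mono
      intro t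
      simp only
      by_cases h3 : t ∈ F
      · rw [indicator_of_mem h3, indicator_of_mem h3, one_mul]
        exact TT_le_AI hv2 l n t
      · rw [indicator_of_notMem h3, zero_mul]
        exact zero_le
  have h2 : Tendsto (fun n : ℕ => (C * (1 / 2) ^ l : ℝ≥0∞) * (∫⁻ t in F, AI v t) +
      ENNReal.ofReal (1 - (1 / 16) ^ (l + 1)) ^ n * 1 * mu univ) atTop
      (𝓝 ((C * (1 / 2) ^ l : ℝ≥0∞) * (∫⁻ t in F, AI v t) + 0 * 1 * mu univ)) := by
    apply tendsto_const_nhds.add
    apply ENNReal.Tendsto.mul_const _ (Or.inr (measure_ne_top _ _))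
    apply ENNReal.Tendsto.mul_const _ (Or.inr ENNReal.one_ne_top)
    apply ENNReal.tendsto_pow_atTop_nhds_zero_of_lt_one
    rw [← ENNReal.ofReal_one]
    apply (ENNReal.ofReal_lt_ofReal_iff (by norm_num)).2
    have : (0 : ℝ) < (1 / 16) ^ (l + 1) := by positivity
    linarith
  rw [zero_mul, zero_mul, add_zero] at h2
  exact ge_of_tendsto' h2 h1

end Pool.Agent.Lib.MP_203158_an
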