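import Pool.Agent.Lib.MP_203158_an.Basic

/-!
# MP_203158_an : the Hausdorff measure on `K`
-/

namespace Pool.Agent.Lib.MP_203158_an

open MeasureTheory Set Metric Filter Topology
open scoped ENNReal NNReal Pointwise

lemma haus_psi (d : Dg) (B : Set E2) : μH[(4 / 3 : ℝ)] (psi d '' B) = (1 / 16) * μH[(4 / 3 : ℝ)] B := by
  have h1 : psi d '' B = (IsometryEquiv.addRight ((1 / 8 : ℝ) • vec (d.1 : ℕ) (d.2 : ℕ))) ''
      ((1 / 8 : ℝ) • B) := by
    ext x
    simp only [mem_image, mem_smul_set, psi]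
    constructor
    · rintro ⟨y, hy, rfl⟩
      exact ⟨(1 / 8 : ℝ) • y, ⟨y, hy, rfl⟩, rfl⟩
    · rintro ⟨_, ⟨y, hy, rfl⟩, rfl⟩
      exact ⟨y, hy, rfl⟩
  rw [h1, IsometryEquiv.hausdorffMeasure_image,
    MeasureTheory.Measure.hausdorffMeasure_smul₀ (by norm_num) (by norm_num)]
  have h2 : (‖(1 / 8 : ℝ)‖₊ ^ (4 / 3 : ℝ) : ℝ≥0) = 1 / 16 := by
    have h3 : ‖(1 / 8 : ℝ)‖₊ = (1 / 2) ^ (3 : ℝ) := by
      ext
      rw [coe_nnnorm, Real.norm_of_nonneg (by norm_num)]
      norm_num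
    rw [h3, ← NNReal.rpow_mul]
    norm_num
  rw [h2]
  simp only [ENNReal.smul_def, smul_eq_mul]
  congr 1
  rw [ENNReal.coe_div (by norm_num)]
  simp

/-- The Hausdorff measure restricted to `K`. -/
noncomputable def mu : Measure E2 := (μH[(4 / 3 : ℝ)]).restrict KK

lemma measurableSet_KK : MeasurableSet KK := isCompact_KK.isClosed.measurableSet

lemma measurable_psi (d : Dg) : Measurable (psi d) := (continuous_psi d).measurable

lemma mu_ident {B : Set E2} (hB : MeasurableSet B) :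
    mu B = ∑ d : Dg, (1 / 16) * mu (psi d ⁻¹' B) := by
  have h1 : mu B = μH[(4 / 3 : ℝ)] (B ∩ KK) := Measure.restrict_apply hB
  have h2 : B ∩ KK = ⋃ d : Dg, psi d '' (psi d ⁻¹' B ∩ KK) := by
    ext x
    simp only [mem_inter_iff, mem_iUnion, mem_image, mem_preimage]
    constructor
    · rintro ⟨hxB, hxK⟩
      obtain ⟨d, y, hy, rfl⟩ := exists_psi hxK
      exact ⟨d, y, ⟨hxB, hy⟩, rfl⟩
    · rintro ⟨d, y, ⟨hyB, hyK⟩, rfl⟩
      exact ⟨hyB, psi_mem hyK⟩
  have h3 : ∀ d : Dg, psi d '' (psi d ⁻¹' B ∩ KK) = B ∩ psi d '' KK := by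
    intro d
    rw [inter_comm, image_inter_preimage, inter_comm]
  rw [h1, h2, measure_iUnion]
  · rw [tsum_fintype]
    apply Finset.sum_congr rfl
    intro d _
    rw [haus_psi, mu, Measure.restrict_apply (measurable_psi d hB)]
  · intro d d' hdd
    simp only [Function.onFun]
    rw [h3, h3]
    exact (psi_disjoint hdd).mono inter_subset_right inter_subset_right
  · intro d
    rw [h3]
    exact hB.inter ((isCompact_KK.image (continuous_psi d)).isClosed.measurableSet)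

/-- Iterated similitudes. -/
noncomputable def Psi : (n : ℕ) → (Fin n → Dg) → E2 → E2
  | 0, _, x => x
  | n + 1, w, x => psi (w 0) (Psi n (fun i => w i.succ) x)

lemma dist_Psi (n : ℕ) : ∀ (w : Fin n → Dg) (x y : E2),
    dist (Psi n w x) (Psi n w y) = (1 / 8) ^ n * dist x y := by
  induction n with
  | zero => intro w x y; simp [Psi]
  | succ n ih =>
    intro w x y
    rw [Psi, Psi, dist_psi, ih, pow_succ]
    ring

lemma exists_Psi (n : ℕ) : ∀ x ∈ KK, ∃ w, ∃ y ∈ KK, Psi n w y = x := by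
  induction n with
  | zero => intro x hx; exact ⟨Fin.elim0, x, hx, rfl⟩
  | succ n ih =>
    intro x hx
    obtain ⟨d, y, hy, rfl⟩ := exists_psi hx
    obtain ⟨w, z, hz, rfl⟩ := ih y hy
    refine ⟨Fin.cons d w, z, hz, ?_⟩
    simp [Psi]

lemma ediam_Psi (n : ℕ) (w : Fin n → Dg) : ediam (Psi n w '' KK) ≤ (1 / 8 : ℝ≥0∞) ^ n := by
  apply ediam_le
  rintro _ ⟨x, hx, rfl⟩ _ ⟨y, hy, rfl⟩
  rw [edist_dist, dist_Psi]
  calc ENNReal.ofReal ((1 / 8) ^ n * dist x y) ≤ ENNReal.ofReal ((1 / 8) ^ n) := by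
        apply ENNReal.ofReal_le_ofReal
        have := dist_le_one hx hy
        have h2 : (0 : ℝ) < (1 / 8) ^ n := by positivity
        nlinarith
    _ = (1 / 8 : ℝ≥0∞) ^ n := by
        rw [ENNReal.ofReal_pow (by norm_num), ENNReal.ofReal_div_of_pos (by norm_num)]
        simp

lemma pow_rpow_aux (n : ℕ) : ((1 / 8 : ℝ≥0∞) ^ n) ^ (4 / 3 : ℝ) = (1 / 16) ^ n := by
  have h1 : (1 / 8 : ℝ≥0∞) ^ (4 / 3 : ℝ) = 1 / 16 := by
    have h3 : (1 / 8 : ℝ≥0∞) = (1 / 2) ^ (3 : ℝ) := by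
      rw [show (3 : ℝ) = ((3 : ℕ) : ℝ) by norm_num, ENNReal.rpow_natCast, one_div, one_div,
        ← ENNReal.inv_pow]
      norm_num
    rw [h3, ← ENNReal.rpow_mul, show (3 : ℝ) * (4 / 3) = ((4 : ℕ) : ℝ) by norm_num,
      ENNReal.rpow_natCast, one_div, one_div, ← ENNReal.inv_pow]
    norm_num
  rw [← ENNReal.rpow_natCast, ← ENNReal.rpow_mul, mul_comm, ENNReal.rpow_mul, h1,
    ENNReal.rpow_natCast]

lemma haus_finite : μH[(4 / 3 : ℝ)] KK ≤ 1 := by
  have h1 := MeasureTheory.Measure.hausdorffMeasure_le_liminf_sum (4 / 3 : ℝ) KK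
    (l := atTop) (ι := fun n : ℕ => (Fin n → Dg)) (fun n : ℕ => (1 / 8 : ℝ≥0∞) ^ n)
    (ENNReal.tendsto_pow_atTop_nhds_zero_of_lt_one (by
      rw [ENNReal.div_lt_iff (by simp) (by simp)]; norm_num))
    (fun n w => Psi n w '' KK) (Eventually.of_forall ediam_Psi) (Eventually.of_forall ?_)
  · refine h1.trans ?_
    apply liminf_le_of_le
    · isBoundedDefault
    intro b hb
    obtain ⟨n, hn⟩ := hb.exists
    refine hn.trans ?_
    have h2 : ∀ w : Fin n → Dg, ediam (Psi n w '' KK) ^ (4 / 3 : ℝ) ≤ (1 / 16) ^ n := by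
      intro w
      rw [← pow_rpow_aux]
      exact ENNReal.rpow_le_rpow (ediam_Psi n w) (by norm_num)
    refine (Finset.sum_le_sum (fun w _ => h2 w)).trans ?_
    rw [Finset.sum_const, Finset.card_univ, Fintype.card_fun, Fintype.card_prod, Fintype.card_fin,
      Fintype.card_fin, nsmul_eq_mul]
    push_cast
    rw [← mul_pow]
    have h5 : (16 : ℝ≥0∞) * (1 / 16) = 1 := by
      rw [one_div, ENNReal.mul_inv_cancel (by simp) (by simp)]
    rw [h5, one_pow]
  · intro n x hx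
    obtain ⟨w, y, hy, rfl⟩ := exists_Psi n x hx
    exact mem_iUnion.2 ⟨w, y, hy, rfl⟩

end Pool.Agent.Lib.MP_203158_an
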