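import Pool.Agent.Lib.MP_203158_an.Basic

/-!
# MP_203158_an : projections of `K`
-/

namespace Pool.Agent.Lib.MP_203158_an

open MeasureTheory Set Metric Filter Topology

/-- The (unnormalised) projection in direction `u`. -/
noncomputable def pr (u : ℝ) (x : E2) : ℝ := x 0 + u * x 1

/-- The projected digit. -/
noncomputable def dig (u : ℝ) (d : Dg) : ℝ := ((d.1 : ℕ) : ℝ) + u * ((d.2 : ℕ) : ℝ)

/-- The length of the projection. -/
noncomputable def LL (u : ℝ) : ℝ := 3 * (1 + u) / 7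

lemma pr_psi (u : ℝ) (d : Dg) (x : E2) : pr u (psi d x) = (pr u x + dig u d) / 8 := by
  unfold pr dig
  rw [psi_zero, psi_one]
  ring

lemma continuous_coord (i : Fin 2) : Continuous (fun x : E2 => x i) :=
  (continuous_apply i).comp (PiLp.continuous_ofLp 2 _)

lemma continuous_pr (u : ℝ) : Continuous (pr u) := by
  unfold pr
  exact (continuous_coord 0).add (continuous_const.mul (continuous_coord 1))

lemma continuous_pr2 : Continuous (fun q : ℝ × E2 => pr q.1 q.2) := by
  unfold pr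
  exact ((continuous_coord 0).comp continuous_snd).add
    (continuous_fst.mul ((continuous_coord 1).comp continuous_snd))

lemma pr_mem {u : ℝ} (hu : 0 ≤ u) {x : E2} (hx : x ∈ KK) : pr u x ∈ Icc 0 (LL u) := by
  obtain ⟨hx0, hx0', hx1, hx1'⟩ := KK_bounds hx
  unfold pr LL
  constructor
  · have := mul_nonneg hu hx1
    linarith
  · have := mul_le_mul_of_nonneg_left hx1' hu
    linarith

lemma exists_digit {u : ℝ} (hu2 : 2 ≤ u) (hu3 : u ≤ 3) {t : ℝ} (ht : t ∈ Icc 0 (LL u)) :
    ∃ d : Dg, 8 * t - dig u d ∈ Icc 0 (LL u) := by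
  obtain ⟨ht0, htL⟩ := ht
  have hL : 1 ≤ LL u := by unfold LL; linarith
  -- an auxiliary choice of the first digit
  have key : ∀ y : ℝ, 0 ≤ y → y < 3 → ∃ a : Fin 4, y - ((a : ℕ) : ℝ) ∈ Icc 0 (LL u) := by
    intro y hy0 hy3
    have hf : ⌊y⌋₊ < 4 := by
      have : (⌊y⌋₊ : ℝ) ≤ y := Nat.floor_le hy0
      have h2 : (⌊y⌋₊ : ℝ) < 4 := by linarith
      exact_mod_cast h2
    refine ⟨⟨⌊y⌋₊, hf⟩, ?_, ?_⟩
    · have : (⌊y⌋₊ : ℝ) ≤ y := Nat.floor_le hy0
      simp only
      linarith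
    · have : y < (⌊y⌋₊ : ℝ) + 1 := Nat.lt_floor_add_one y
      simp only
      linarith
  by_cases h1 : 3 + 3 * u ≤ 8 * t
  · refine ⟨(3, 3), ?_, ?_⟩
    · simp only [dig]
      norm_num
      linarith
    · simp only [dig]
      norm_num
      unfold LL at *
      linarith
  · push Not at h1
    by_cases h2 : 3 * u ≤ 8 * t
    · obtain ⟨a, ha0, ha1⟩ := key (8 * t - 3 * u) (by linarith) (by linarith)
      refine ⟨(a, 3), ?_, ?_⟩
      · simp only [dig]
        norm_num
        linarith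
      · simp only [dig]
        norm_num
        linarith
    · push Not at h2
      have hu0 : 0 < u := by linarith
      set b := ⌊8 * t / u⌋₊ with hb
      have hb0 : (b : ℝ) ≤ 8 * t / u := Nat.floor_le (by positivity)
      have hb1 : 8 * t / u < (b : ℝ) + 1 := Nat.lt_floor_add_one _
      rw [le_div_iff₀ hu0] at hb0
      rw [div_lt_iff₀ hu0] at hb1
      have hb4 : b < 4 := by
        have h3 : (b : ℝ) * u < 3 * u := by linarith
        have h4 : (b : ℝ) < 3 := lt_of_mul_lt_mul_right h3 hu0.le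
        have h5 : (b : ℝ) < 4 := by linarith
        exact_mod_cast h5
      obtain ⟨a, ha0, ha1⟩ := key (8 * t - b * u) (by linarith) (by nlinarith)
      refine ⟨(a, ⟨b, hb4⟩), ?_, ?_⟩
      · simp only [dig]
        linarith
      · simp only [dig]
        linarith

lemma exists_slice {u : ℝ} (hu2 : 2 ≤ u) (hu3 : u ≤ 3) {t : ℝ} (ht : t ∈ Icc 0 (LL u)) :
    ∃ x ∈ KK, pr u x = t := by
  have hu0 : (0 : ℝ) ≤ u := by linarith
  have hL : 1 ≤ LL u := by unfold LL; linarith
  have h1 : ∀ n : ℕ, ∀ t ∈ Icc 0 (LL u), ∃ x ∈ KK, |t - pr u x| ≤ LL u * (1 / 8) ^ n := by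
    intro n
    induction n with
    | zero =>
      intro t ht
      obtain ⟨x, hx⟩ := KK_nonempty
      refine ⟨x, hx, ?_⟩
      have h2 := pr_mem hu0 hx
      rw [pow_zero, mul_one, abs_sub_le_iff]
      constructor
      · linarith [ht.1, ht.2, h2.1, h2.2]
      · linarith [ht.1, ht.2, h2.1, h2.2]
    | succ n ih =>
      intro t ht
      obtain ⟨d, hd⟩ := exists_digit hu2 hu3 ht
      obtain ⟨x, hx, hxt⟩ := ih _ hd
      refine ⟨psi d x, psi_mem hx, ?_⟩
      rw [pr_psi]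
      have h3 : t - (pr u x + dig u d) / 8 = (8 * t - dig u d - pr u x) / 8 := by ring
      rw [h3, abs_div, pow_succ, abs_of_pos (by norm_num : (0 : ℝ) < 8)]
      linarith
  have hcl : IsClosed (pr u '' KK) := (isCompact_KK.image (continuous_pr u)).isClosed
  have h2 : t ∈ closure (pr u '' KK) := by
    rw [Metric.mem_closure_iff]
    intro ε hε
    obtain ⟨n, hn⟩ := exists_pow_lt_of_lt_one (show 0 < ε / LL u by positivity)
      (show (1 / 8 : ℝ) < 1 by norm_num)
    obtain ⟨x, hx, hxt⟩ := h1 n t ht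
    refine ⟨pr u x, ⟨x, hx, rfl⟩, ?_⟩
    rw [Real.dist_eq]
    refine lt_of_le_of_lt hxt ?_
    rw [lt_div_iff₀ (by positivity)] at hn
    linarith
  rw [hcl.closure_eq] at h2
  obtain ⟨x, hx, hxt⟩ := h2
  exact ⟨x, hx, hxt⟩

lemma pr_image {u : ℝ} (hu2 : 2 ≤ u) (hu3 : u ≤ 3) : pr u '' KK = Icc 0 (LL u) := by
  ext t
  constructor
  · rintro ⟨x, hx, rfl⟩
    exact pr_mem (by linarith) hx
  · intro ht
    obtain ⟨x, hx, hxt⟩ := exists_slice hu2 hu3 ht
    exact ⟨x, hx, hxt⟩

end Pool.Agent.Lib.MP_203158_an
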