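import Pool.Agent.Lib.MP_203158_an.Pos
import Pool.Agent.Lib.MP_203158_an.Proj

/-!
# MP_203158_an : the projected measures
-/

namespace Pool.Agent.Lib.MP_203158_an

open MeasureTheory Set Metric Filter Topology
open scoped ENNReal NNReal

/-- A measure on the line that is controlled on half open intervals. -/
lemma le_of_Ioc (ν : Measure ℝ) (C : ℝ≥0)
    (h : ∀ a b : ℝ, a ≤ b → ν (Ioc a b) ≤ C * ENNReal.ofReal (b - a)) : ν ≤ C • volume := by
  have h1 : C • (volume : Measure ℝ) = (C • StieltjesFunction.id).measure := by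
    rw [StieltjesFunction.measure_smul, Real.volume_eq_stieltjes_id]
  rw [h1, Measure.le_iff]
  intro s _
  rw [StieltjesFunction.measure]
  change ν.toOuterMeasure s ≤ (C • StieltjesFunction.id).outer s
  have h2 : ν.toOuterMeasure ≤ (C • StieltjesFunction.id).outer := by
    unfold StieltjesFunction.outer
    rw [OuterMeasure.le_ofFunction]
    intro t
    rw [StieltjesFunction.length_eq]
    refine le_iInf fun a => le_iInf fun b => le_iInf fun hab => ?_
    have h3 : t ⊆ Ioc a b := by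
      intro x hx
      refine hab ⟨hx, ?_⟩
      intro hbot
      have := hbot (x - 1)
      linarith
    rcases le_or_gt a b with hab' | hab'
    · refine (measure_mono h3).trans ((h a b hab').trans ?_)
      have h4 : (C • StieltjesFunction.id) b - (C • StieltjesFunction.id) a = C * (b - a) := by
        have : ∀ x, (C • StieltjesFunction.id) x = C * x := fun x => rfl
        rw [this, this]; ring
      rw [h4, ENNReal.ofReal_mul (NNReal.coe_nonneg C), ENNReal.ofReal_coe_nnreal]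
    · rw [Ioc_eq_empty (not_lt.2 hab'.le)] at h3
      have : t = ∅ := subset_empty_iff.1 h3
      rw [this]
      simp
  exact h2 s

/-- The projected measure. -/
noncomputable def nu (u : ℝ) : Measure ℝ := mu.map (pr u)

lemma measurable_pr (u : ℝ) : Measurable (pr u) := (continuous_pr u).measurable

instance (u : ℝ) : IsFiniteMeasure (nu u) := by
  unfold nu
  infer_instance

lemma nu_univ (u : ℝ) : nu u univ = mu univ := by
  rw [nu, Measure.map_apply (measurable_pr u) MeasurableSet.univ, preimage_univ]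

lemma mu_eq_sum : mu = ∑ d : Dg, (1 / 16 : ℝ≥0∞) • mu.map (psi d) := by
  ext B hB
  rw [mu_ident hB, Measure.finsetSum_apply]
  apply Finset.sum_congr rfl
  intro d _
  rw [Measure.smul_apply, Measure.map_apply (measurable_psi d) hB, smul_eq_mul]

/-- The averaging operator. -/
noncomputable def PP (u : ℝ) (g : ℝ → ℝ≥0∞) : ℝ → ℝ≥0∞ :=
  fun s => ∑ d : Dg, (1 / 16) * g ((s + dig u d) / 8)

lemma measurable_PP (u : ℝ) {g : ℝ → ℝ≥0∞} (hg : Measurable g) : Measurable (PP u g) := by
  unfold PP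
  fun_prop

lemma lintegral_nu (u : ℝ) {g : ℝ → ℝ≥0∞} (hg : Measurable g) :
    ∫⁻ s, g s ∂(nu u) = ∫⁻ s, PP u g s ∂(nu u) := by
  have h1 : ∫⁻ s, g s ∂(nu u) = ∫⁻ x, g (pr u x) ∂mu := by
    rw [nu, lintegral_map hg (measurable_pr u)]
  have h2 : ∫⁻ s, PP u g s ∂(nu u) = ∫⁻ x, PP u g (pr u x) ∂mu := by
    rw [nu, lintegral_map (measurable_PP u hg) (measurable_pr u)]
  rw [h1, h2, mu_eq_sum, lintegral_finsetSum_measure]
  rw [← mu_eq_sum]
  unfold PP
  rw [lintegral_finsetSum _ (fun d _ => by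
    have := measurable_pr u
    fun_prop)]
  apply Finset.sum_congr rfl
  intro d _
  rw [lintegral_smul_measure,
    lintegral_map (f := fun x => g (pr u x)) (hg.comp (measurable_pr u)) (measurable_psi d),
    lintegral_const_mul _ (by
      have := measurable_pr u
      fun_prop), smul_eq_mul]
  simp_rw [pr_psi]

lemma measurable_PP_iter (u : ℝ) (n : ℕ) {g : ℝ → ℝ≥0∞} (hg : Measurable g) :
    Measurable ((PP u)^[n] g) := by
  induction n with
  | zero => exact hg
  | succ n ih =>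
    rw [Function.iterate_succ_apply']
    exact measurable_PP u ih

lemma lintegral_nu_iter (u : ℝ) (n : ℕ) {g : ℝ → ℝ≥0∞} (hg : Measurable g) :
    ∫⁻ s, g s ∂(nu u) = ∫⁻ s, (PP u)^[n] g s ∂(nu u) := by
  induction n with
  | zero => rfl
  | succ n ih =>
    rw [ih, Function.iterate_succ_apply']
    exact lintegral_nu u (measurable_PP_iter u n hg)

/-- Sum over a residue class. -/
lemma tsum_mod8 (G : ℤ → ℝ≥0∞) :
    ∑' N : ℤ, G N = ∑ r : Fin 8, ∑' N : ℤ, G (((r : ℕ) : ℤ) + 8 * N) := by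
  rw [← (Int.divModEquiv 8).symm.tsum_eq, ENNReal.tsum_prod', ENNReal.tsum_comm, tsum_fintype]
  apply Finset.sum_congr rfl
  intro r _
  apply tsum_congr
  intro N
  congr 1
  simp [Int.divModEquiv]
  ring

lemma tsum_shift (G : ℤ → ℝ≥0∞) (c e : ℤ) :
    ∑' N : ℤ, G (c + 8 * e + 8 * N) = ∑' N : ℤ, G (c + 8 * N) := by
  rw [← (Equiv.addLeft e).tsum_eq (fun N => G (c + 8 * N))]
  apply tsum_congr
  intro N
  congr 1
  simp
  ring

lemma two_to_one (G : ℤ → ℝ≥0∞) (k m : ℤ) :
    ∑ d : Dg, ∑' N : ℤ, G ((8 * k + 1) * (d.1 : ℕ) + (8 * m + 4) * (d.2 : ℕ) + 8 * N)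
      = 2 * ∑' N : ℤ, G N := by
  have h1 : ∀ d : Dg, ∑' N : ℤ, G ((8 * k + 1) * (d.1 : ℕ) + (8 * m + 4) * (d.2 : ℕ) + 8 * N)
      = ∑' N : ℤ, G (((d.1 : ℕ) + 4 * (d.2 : ℕ) : ℤ) + 8 * N) := by
    intro d
    rw [← tsum_shift G ((d.1 : ℕ) + 4 * (d.2 : ℕ) : ℤ) (k * (d.1 : ℕ) + m * (d.2 : ℕ))]
    apply tsum_congr
    intro N
    congr 1
    ring
  simp_rw [h1]
  rw [tsum_mod8 G, Fintype.sum_prod_type]
  have h8 := tsum_shift G 0 1
  have h9 := tsum_shift G 1 1
  have h10 := tsum_shift G 2 1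
  have h11 := tsum_shift G 3 1
  have h12 := tsum_shift G 4 1
  have h13 := tsum_shift G 5 1
  have h14 := tsum_shift G 6 1
  have h15 := tsum_shift G 7 1
  simp only [Fin.sum_univ_four, Fin.sum_univ_eight]
  norm_num at h8 h9 h10 h11 h12 h13 h14 h15 ⊢
  rw [h8, h9, h10, h11, h12, h13, h14, h15]
  ring

end Pool.Agent.Lib.MP_203158_an
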