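import Mathlib

/-!
# MP_203158_an : the packing measure
-/

namespace Pool.Agent.Lib.MP_203158_an

open MeasureTheory Set Metric
open scoped ENNReal

/-- The supremum of `∑ |B_i|^α` over countable packings of `A`: pairwise disjoint closed balls
with centres in `A` and diameters at most `δ`. -/
noncomputable def packingPre {X : Type*} [MetricSpace X] (α δ : ℝ) (A : Set X) : ℝ≥0∞ :=
  ⨆ (P : Set (X × ℝ)) (_ : P.Countable ∧ (∀ p ∈ P, p.1 ∈ A ∧ 0 < p.2 ∧ 2 * p.2 ≤ δ) ∧
      P.PairwiseDisjoint (fun p => closedBall p.1 p.2)),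
    ∑' p : P, ENNReal.ofReal ((2 * (p : X × ℝ).2) ^ α)

/-- The packing premeasure: the limit (infimum) of `packingPre α δ A` as `δ → 0`. -/
noncomputable def packingPre0 {X : Type*} [MetricSpace X] (α : ℝ) (A : Set X) : ℝ≥0∞ :=
  ⨅ (δ : ℝ) (_ : 0 < δ), packingPre α δ A

/-- The `α`-dimensional packing measure. -/
noncomputable def packingMeasure {X : Type*} [MetricSpace X] (α : ℝ) (E : Set X) : ℝ≥0∞ :=
  ⨅ (A : ℕ → Set X) (_ : E ⊆ ⋃ i, A i), ∑' i, packingPre0 α (A i)

end Pool.Agent.Lib.MP_203158_an
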