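import Pool.Agent.Lib.MP_203158_an.BaireArg
import Pool.Agent.Lib.MP_203158_an.PackingDef

/-!
# MP_203158_an : packing measures of the slices
-/

namespace Pool.Agent.Lib.MP_203158_an

open MeasureTheory Set Metric Filter Topology
open scoped ENNReal NNReal

lemma le_packingPre {X : Type*} [MetricSpace X] {α δ : ℝ} {A : Set X} {ι : Type} [Fintype ι]
    (z : ι → X) (r : ι → ℝ) (hz : ∀ i, z i ∈ A) (hr : ∀ i, 0 < r i) (hδ : ∀ i, 2 * r i ≤ δ)
    (hd : ∀ i j, i ≠ j → r i + r j < dist (z i) (z j)) :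
    ∑ i, ENNReal.ofReal ((2 * r i) ^ α) ≤ packingPre α δ A := by
  have hinj : Function.Injective (fun i => (z i, r i)) := by
    intro i j hij
    by_contra hne
    have h1 := hd i j hne
    have h2 : z i = z j := congrArg Prod.fst hij
    rw [h2, dist_self] at h1
    linarith [hr i, hr j]
  unfold packingPre
  refine le_iSup₂_of_le (range (fun i => (z i, r i))) ?_ ?_
  · refine ⟨(Set.finite_range _).countable, ?_, ?_⟩
    · rintro _ ⟨i, rfl⟩
      exact ⟨hz i, hr i, hδ i⟩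
    · rintro _ ⟨i, rfl⟩ _ ⟨j, rfl⟩ hij
      have hne : i ≠ j := fun h => hij (by rw [h])
      exact closedBall_disjoint_closedBall (hd i j hne)
  · rw [tsum_range (fun p : X × ℝ => ENNReal.ofReal ((2 * p.2) ^ α)) hinj, tsum_fintype]

/-- The contraction attached to a word. -/
noncomputable def Th (n a b : ℕ) (z : E2) : E2 := (1 / 8 : ℝ) ^ n • (z + vec a b)

lemma pr_Th (u : ℝ) (n a b : ℕ) (z : E2) : pr u (Th n a b z) = (1 / 8) ^ n * (pr u z + a + u * b) := by
  unfold pr Th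
  simp
  ring

lemma dist_Th (n a b : ℕ) (z z' : E2) : dist (Th n a b z) (Th n a b z') = (1 / 8) ^ n * dist z z' := by
  unfold Th
  rw [dist_smul₀, dist_add_right, Real.norm_of_nonneg (by positivity)]

lemma psi_Th (d : Dg) (n a b : ℕ) (z : E2) :
    psi d (Th n a b z) = Th (n + 1) (a + 8 ^ n * (d.1 : ℕ)) (b + 8 ^ n * (d.2 : ℕ)) z := by
  have h9 : (1 / 8 : ℝ) ^ n * 8 ^ n = 1 := by
    rw [← mul_pow]; norm_num
  apply ext2
  · rw [psi_zero]
    unfold Th
    simp only [PiLp.smul_apply, PiLp.add_apply, vec_zero, smul_eq_mul]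
    push_cast
    rw [pow_succ]
    linear_combination (-(1 / 8 : ℝ) * ((d.1 : ℕ) : ℝ)) * h9
  · rw [psi_one]
    unfold Th
    simp only [PiLp.smul_apply, PiLp.add_apply, vec_one, smul_eq_mul]
    push_cast
    rw [pow_succ]
    linear_combination (-(1 / 8 : ℝ) * ((d.2 : ℕ) : ℝ)) * h9

lemma exists_Th (n : ℕ) : ∀ x ∈ KK, ∃ a b : ℕ, (∃ y ∈ KK, Th n a b y = x) ∧
    ∀ z ∈ KK, Th n a b z ∈ KK := by
  induction n with
  | zero =>
    intro x hx
    have h1 : ∀ z, Th 0 0 0 z = z := by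
      intro z
      apply ext2 <;> simp [Th]
    exact ⟨0, 0, ⟨x, hx, h1 x⟩, fun z hz => by rw [h1]; exact hz⟩
  | succ n ih =>
    intro x hx
    obtain ⟨d, x', hx', rfl⟩ := exists_psi hx
    obtain ⟨a, b, ⟨y, hy, rfl⟩, h2⟩ := ih x' hx'
    refine ⟨_, _, ⟨y, hy, (psi_Th d n a b y).symm⟩, fun z hz => ?_⟩
    rw [← psi_Th]
    exact psi_mem (h2 z hz)

lemma rpow_third (n : ℕ) : ((1 / 8 : ℝ) ^ n) ^ (1 / 3 : ℝ) = (1 / 2) ^ n := by
  have h1 : (1 / 8 : ℝ) ^ (1 / 3 : ℝ) = 1 / 2 := by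
    have h3 : (1 / 8 : ℝ) = (1 / 2) ^ (3 : ℝ) := by norm_num
    rw [h3, ← Real.rpow_mul (by norm_num)]
    norm_num
  rw [← Real.rpow_natCast, ← Real.rpow_mul (by norm_num), mul_comm, Real.rpow_mul (by norm_num), h1,
    Real.rpow_natCast]

/-- A dense part of a piece of a slice has infinite packing premeasure. -/
lemma packingPre_top {u t : ℝ} (hu2 : 2 ≤ u) (hu3 : u ≤ 3) {x : E2} (hx : x ∈ KK)
    (hxt : pr u x = t)
    (hgood : ∀ n a b : ℕ, 8 ^ n * t - a - u * b ∈ Icc 0 (LL u) →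
      AI u (8 ^ n * t - a - u * b) = ∞)
    {A : Set E2} {ε : ℝ} (hε : 0 < ε)
    (hA : ∀ y ∈ KK, pr u y = t → dist y x < ε → y ∈ closure A) {δ : ℝ} (hδ : 0 < δ) :
    packingPre (1 / 3) δ A = ∞ := by
  obtain ⟨n, hn⟩ := exists_pow_lt_of_lt_one (show 0 < min ε δ by positivity)
    (show (1 / 8 : ℝ) < 1 by norm_num)
  have hn1 : (1 / 8 : ℝ) ^ n < ε := lt_of_lt_of_le hn (min_le_left _ _)
  have hn2 : (1 / 8 : ℝ) ^ n < δ := lt_of_lt_of_le hn (min_le_right _ _)
  obtain ⟨a, b, ⟨y, hy, hyx⟩, hTh⟩ := exists_Th n x hx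
  set s : ℝ := 8 ^ n * t - a - u * b with hs
  have h9 : (1 / 8 : ℝ) ^ n * 8 ^ n = 1 := by
    rw [← mul_pow]; norm_num
  have hys : pr u y = s := by
    have h1 := pr_Th u n a b y
    rw [hyx, hxt] at h1
    rw [hs, h1]
    linear_combination -(pr u y + a + u * b) * h9
  have hsI : s ∈ Icc 0 (LL u) := by
    rw [← hys]
    exact pr_mem (by linarith) hy
  have hAI : AI u s = ∞ := hgood n a b hsI
  have hpos8 : ∀ k : ℕ, (0 : ℝ) < (1 / 8) ^ k := fun k => by positivity
  have key : ∀ m : ℕ, (1 / 2) ^ (n + 1) * AA m u s ≤ packingPre (1 / 3) δ A := by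
    intro m
    obtain ⟨ι, hι, w, k, h1, h2, h3⟩ := family m u s hu2 hu3
    have hcl : ∀ i, Th n a b (w i) ∈ closure A := by
      intro i
      apply hA
      · exact hTh _ (h1 i).1
      · rw [pr_Th, (h1 i).2, hs]
        linear_combination t * h9
      · rw [← hyx, dist_Th]
        have := dist_le_one (h1 i).1 hy
        have h4 := hpos8 n
        nlinarith
    have hex : ∀ i, ∃ z ∈ A, dist (Th n a b (w i)) z < (1 / 8) ^ (n + k i) / 32 := by
      intro i
      have h4 := hpos8 (n + k i)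
      exact Metric.mem_closure_iff.1 (hcl i) _ (by positivity)
    choose z hzA hzd using hex
    have h5 := le_packingPre (α := 1 / 3) (δ := δ) (A := A) z (fun i => (1 / 8) ^ (n + k i) / 16)
      hzA (fun i => by have := hpos8 (n + k i); positivity) (fun i => by
        have h6 : (1 / 8 : ℝ) ^ (n + k i) ≤ (1 / 8) ^ n := by
          rw [pow_add]
          have h7 : (1 / 8 : ℝ) ^ (k i) ≤ 1 := pow_le_one₀ (by norm_num) (by norm_num)
          have := hpos8 n
          nlinarith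
        have := hpos8 n
        linarith) (fun i j hij => by
        have h6 := h2 i j hij
        have h7 := dist_Th n a b (w i) (w j)
        have h8 := hzd i
        have h10 := hzd j
        have h11 : dist (Th n a b (w i)) (Th n a b (w j)) ≤
            dist (Th n a b (w i)) (z i) + dist (z i) (z j) + dist (Th n a b (w j)) (z j) := by
          have h12 := dist_triangle4 (Th n a b (w i)) (z i) (z j) (Th n a b (w j))
          rw [dist_comm (z j)] at h12
          exact h12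
        have hmi : (1 / 8 : ℝ) ^ (k i) ≤ (1 / 8) ^ (min (k i) (k j)) :=
          pow_le_pow_of_le_one (by norm_num) (by norm_num) (min_le_left _ _)
        have hmj : (1 / 8 : ℝ) ^ (k j) ≤ (1 / 8) ^ (min (k i) (k j)) :=
          pow_le_pow_of_le_one (by norm_num) (by norm_num) (min_le_right _ _)
        have hn0 := hpos8 n
        have hm0 := hpos8 (min (k i) (k j))
        have h13 : (1 / 8 : ℝ) ^ (n + k i) ≤ (1 / 8) ^ n * (1 / 8) ^ (min (k i) (k j)) := by
          rw [pow_add]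
          exact mul_le_mul_of_nonneg_left hmi hn0.le
        have h14 : (1 / 8 : ℝ) ^ (n + k j) ≤ (1 / 8) ^ n * (1 / 8) ^ (min (k i) (k j)) := by
          rw [pow_add]
          exact mul_le_mul_of_nonneg_left hmj hn0.le
        have h15 : (1 / 8 : ℝ) ^ n * ((1 / 2) * (1 / 8) ^ (min (k i) (k j))) ≤
            (1 / 8) ^ n * dist (w i) (w j) := mul_le_mul_of_nonneg_left h6 hn0.le
        rw [← h7] at h15
        have h16 : (0 : ℝ) < (1 / 8) ^ n * (1 / 8) ^ (min (k i) (k j)) := mul_pos hn0 hm0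
        linarith)
    refine le_trans ?_ h5
    have h6 : ∀ i, ENNReal.ofReal ((2 * ((1 / 8 : ℝ) ^ (n + k i) / 16)) ^ (1 / 3 : ℝ))
        = (1 / 2) ^ (n + 1) * (1 / 2) ^ (k i) := by
      intro i
      rw [show 2 * ((1 / 8 : ℝ) ^ (n + k i) / 16) = (1 / 8) ^ (n + k i + 1) by rw [pow_succ]; ring,
        rpow_third, ENNReal.ofReal_pow (by norm_num), ENNReal.ofReal_div_of_pos (by norm_num),
        ENNReal.ofReal_one, ENNReal.ofReal_ofNat, ← pow_add]
      congr 1
      omega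
    simp_rw [h6]
    rw [← Finset.mul_sum]
    exact mul_le_mul_right h3 _
  rw [eq_top_iff]
  have h1 : (1 / 2 : ℝ≥0∞) ^ (n + 1) * AI u s = ∞ := by
    rw [hAI]
    exact ENNReal.mul_top (half_pow_ne_zero (n + 1))
  rw [← h1, AI, ENNReal.mul_iSup]
  exact iSup_le key

/-- Slices over good points have infinite packing measure. -/
lemma packingMeasure_top {u t : ℝ} (hu2 : 2 ≤ u) (hu3 : u ≤ 3) (ht : t ∈ Icc 0 (LL u))
    (hgood : ∀ n a b : ℕ, 8 ^ n * t - a - u * b ∈ Icc 0 (LL u) →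
      AI u (8 ^ n * t - a - u * b) = ∞) :
    packingMeasure (1 / 3) (KK ∩ pr u ⁻¹' {t}) = ∞ := by
  unfold packingMeasure
  refine iInf₂_eq_top.2 ?_
  intro A hcov
  set S : Set E2 := KK ∩ pr u ⁻¹' {t} with hS
  have hScpt : IsCompact S :=
    isCompact_KK.inter_right (isClosed_singleton.preimage (continuous_pr u))
  have hSne : S.Nonempty := by
    obtain ⟨x, hx, hxt⟩ := exists_slice hu2 hu3 ht
    exact ⟨x, hx, hxt⟩
  have : CompactSpace S := isCompact_iff_compactSpace.1 hScpt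
  have : Nonempty S := hSne.to_subtype
  obtain ⟨i, ⟨x, hx⟩⟩ := nonempty_interior_of_iUnion_of_closed
    (f := fun i => (Subtype.val : S → E2) ⁻¹' (closure (A i)))
    (fun i => isClosed_closure.preimage continuous_subtype_val) (by
      ext y
      simp only [mem_iUnion, mem_preimage, mem_univ, iff_true]
      obtain ⟨i, hi⟩ := mem_iUnion.1 (hcov y.2)
      exact ⟨i, subset_closure hi⟩)
  rw [mem_interior_iff_mem_nhds, Metric.mem_nhds_iff] at hx
  obtain ⟨ε, hε, hball⟩ := hx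
  have h1 : packingPre0 (1 / 3) (A i) = ∞ := by
    unfold packingPre0
    refine iInf₂_eq_top.2 ?_
    intro δ hδ
    refine packingPre_top hu2 hu3 x.2.1 x.2.2 hgood hε ?_ hδ
    intro y hy hyt hyx
    have hyS : y ∈ S := ⟨hy, hyt⟩
    exact hball (show (⟨y, hyS⟩ : S) ∈ ball x ε from hyx)
  rw [eq_top_iff, ← h1]
  exact ENNReal.le_tsum i

end Pool.Agent.Lib.MP_203158_an
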