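import Pool.Agent.Lib.MP_203158_an.Meas

/-!
# MP_203158_an : the Hausdorff measure of `K` is positive
-/

namespace Pool.Agent.Lib.MP_203158_an

open MeasureTheory Set Metric Filter Topology
open scoped ENNReal NNReal Pointwise

/-- The base 16 number of a code. -/
noncomputable def GG (ω : ℕ → Dg) : ℝ := Real.ofDigits (b := 4 * 4) (fun i => finProdFinEquiv (ω i))

lemma sep_XX (n : ℕ) : ∀ ω ω' : ℕ → Dg, (∀ i < n, ω i = ω' i) → ω n ≠ ω' n →
    (1 / 8) ^ n / 14 ≤ dist (XX ω) (XX ω') := by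
  induction n with
  | zero =>
    intro ω ω' _ h
    rw [XX_cons ω, XX_cons ω']
    have := sep_psi h (x := XX (fun i => ω (i + 1))) (y := XX (fun i => ω' (i + 1)))
      ⟨_, rfl⟩ ⟨_, rfl⟩
    simpa using this
  | succ n ih =>
    intro ω ω' h1 h2
    rw [XX_cons ω, XX_cons ω', h1 0 (by omega), dist_psi]
    have := ih (fun i => ω (i + 1)) (fun i => ω' (i + 1)) (fun i hi => h1 (i + 1) (by omega)) h2
    rw [pow_succ]
    linarith

lemma first_diff {ω ω' : ℕ → Dg} (h : ω ≠ ω') : ∃ n, (∀ i < n, ω i = ω' i) ∧ ω n ≠ ω' n := by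
  classical
  have h1 : ∃ n, ω n ≠ ω' n := by
    by_contra hcon
    push Not at hcon
    exact h (funext hcon)
  refine ⟨Nat.find h1, ?_, Nat.find_spec h1⟩
  intro i hi
  have := Nat.find_min h1 hi
  push Not at this
  exact this

lemma XX_injective : Function.Injective XX := by
  intro ω ω' h
  by_contra hne
  obtain ⟨n, h1, h2⟩ := first_diff hne
  have := sep_XX n ω ω' h1 h2
  rw [h, dist_self] at this
  have h3 : (0 : ℝ) < (1 / 8) ^ n / 14 := by positivity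
  linarith

lemma rpow_aux (n : ℕ) : (((1 / 8 : ℝ) ^ n) ^ (4 / 3 : ℝ)) = (1 / 16) ^ n := by
  have h1 : (1 / 8 : ℝ) ^ (4 / 3 : ℝ) = 1 / 16 := by
    have h3 : (1 / 8 : ℝ) = (1 / 2) ^ (3 : ℝ) := by norm_num
    rw [h3, ← Real.rpow_mul (by norm_num)]
    norm_num
  rw [← Real.rpow_natCast, ← Real.rpow_mul (by norm_num), mul_comm, Real.rpow_mul (by norm_num), h1,
    Real.rpow_natCast]

lemma GG_holder (ω ω' : ℕ → Dg) :
    |GG ω - GG ω'| ≤ 14 ^ (4 / 3 : ℝ) * (dist (XX ω) (XX ω')) ^ (4 / 3 : ℝ) := by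
  by_cases hne : ω = ω'
  · subst hne
    simp
  · obtain ⟨n, h1, h2⟩ := first_diff hne
    have h3 := sep_XX n ω ω' h1 h2
    have h4 : |GG ω - GG ω'| ≤ (((4 * 4 : ℕ) : ℝ) ^ n)⁻¹ := by
      apply Real.abs_ofDigits_sub_ofDigits_le
      intro i hi
      rw [h1 i hi]
    have h5 : (((4 * 4 : ℕ) : ℝ) ^ n)⁻¹ = (1 / 16) ^ n := by
      rw [one_div, inv_pow]
      norm_num
    rw [h5, ← rpow_aux n] at h4
    refine h4.trans ?_
    rw [← Real.mul_rpow (by norm_num) dist_nonneg]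
    apply Real.rpow_le_rpow (by positivity) _ (by norm_num)
    linarith

lemma GG_surj : ∀ t ∈ Icc (0 : ℝ) 1, ∃ ω, GG ω = t := by
  intro t ht
  obtain ⟨a, -, ha⟩ := Real.ofDigits_SurjOn (b := 4 * 4) (by norm_num) ht
  refine ⟨fun i => finProdFinEquiv.symm (a i), ?_⟩
  unfold GG
  simpa using ha

/-- The map from `K` to the line. -/
noncomputable def gg (x : E2) : ℝ := GG (Function.invFun XX x)

lemma gg_XX (ω : ℕ → Dg) : gg (XX ω) = GG ω := by
  unfold gg
  rw [Function.leftInverse_invFun XX_injective]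

lemma gg_holder : HolderOnWith ((14 : ℝ≥0) ^ (4 / 3 : ℝ)) (4 / 3) gg KK := by
  rintro _ ⟨ω, rfl⟩ _ ⟨ω', rfl⟩
  rw [gg_XX, gg_XX, edist_dist, edist_dist, Real.dist_eq]
  refine (ENNReal.ofReal_le_ofReal (GG_holder ω ω')).trans ?_
  rw [ENNReal.ofReal_mul (by positivity), ENNReal.ofReal_rpow_of_nonneg dist_nonneg (by positivity)]
  apply le_of_eq
  congr 1
  rw [← ENNReal.ofReal_coe_nnreal]
  congr 1

lemma haus_pos : 0 < μH[(4 / 3 : ℝ)] KK := by
  have h1 := gg_holder.hausdorffMeasure_image_le (by positivity) (d := 1) (by norm_num)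
  have h2 : Icc (0 : ℝ) 1 ⊆ gg '' KK := by
    intro t ht
    obtain ⟨ω, hω⟩ := GG_surj t ht
    exact ⟨XX ω, ⟨ω, rfl⟩, by rw [gg_XX, hω]⟩
  have h3 : (1 : ℝ≥0∞) ≤ μH[1] (gg '' KK) := by
    refine le_trans ?_ (measure_mono h2)
    rw [hausdorffMeasure_real, Real.volume_Icc]
    simp
  by_contra hcon
  have h4 : μH[(4 / 3 : ℝ)] KK = 0 := by simpa using hcon
  have h5 : (((4 / 3 : ℝ≥0) : ℝ) * 1) = (4 / 3 : ℝ) := by
    push_cast; norm_num
  rw [h5, h4, mul_zero] at h1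
  have := h3.trans h1
  simp at this

lemma dimH_KK : dimH KK = ENNReal.ofReal (4 / 3) := by
  have h := dimH_of_hausdorffMeasure_ne_zero_ne_top (d := 4 / 3) (s := KK)
  have h5 : (((4 / 3 : ℝ≥0) : ℝ)) = (4 / 3 : ℝ) := by
    push_cast; norm_num
  rw [h5] at h
  rw [h haus_pos.ne' (lt_of_le_of_lt haus_finite (by simp)).ne]
  rw [← h5, ENNReal.ofReal_coe_nnreal]

lemma mu_univ : mu univ = μH[(4 / 3 : ℝ)] KK := by
  rw [mu, Measure.restrict_apply MeasurableSet.univ, univ_inter]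

instance : IsFiniteMeasure mu := ⟨by
  rw [mu_univ]; exact lt_of_le_of_lt haus_finite (by simp)⟩

lemma mu_pos : 0 < mu univ := by rw [mu_univ]; exact haus_pos

end Pool.Agent.Lib.MP_203158_an
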