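import Pool.Agent.Lib.MP_203158_an.Bad

/-!
# MP_203158_an : singular projections in the bad rational directions, II
-/

namespace Pool.Agent.Lib.MP_203158_an

open MeasureTheory Set Metric Filter Topology
open scoped ENNReal NNReal

lemma not_int_aux {q : ℤ} (hq : q % 2 = 1) (j : ℕ) (N : ℤ) : 4 * ((q : ℝ) / 8 ^ (j + 1)) ≠ N := by
  intro h
  have h1 : (4 : ℝ) * q = N * 8 ^ (j + 1) := by
    field_simp at h
    linarith
  have h2 : 4 * q = N * 8 ^ (j + 1) := by exact_mod_cast h1
  rw [pow_succ] at h2
  have h3 : q = 2 * (N * 8 ^ j) := by linarith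
  omega

theorem nu_singular {k m : ℤ} (hk : 0 ≤ k) {v : ℝ} (hv : v * (8 * k + 1) = 8 * m + 1) :
    nu v ⟂ₘ volume := by
  set σ := (nu v).singularPart volume with hσ
  set f := (nu v).rnDeriv volume with hf
  set ρ := volume.withDensity f with hρ
  have hfm : Measurable f := Measure.measurable_rnDeriv _ _
  have h_dec : nu v = σ + ρ := Measure.haveLebesgueDecomposition_add _ _
  have hσs : σ ⟂ₘ volume := Measure.mutuallySingular_singularPart _ _
  have hρle : ρ ≤ nu v := by
    conv_rhs => rw [h_dec]
    exact Measure.le_add_left le_rfl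
  have hρfin : IsFiniteMeasure ρ := isFiniteMeasure_of_le (nu v) hρle
  have hρac : ρ ≪ volume := withDensity_absolutelyContinuous _ _
  have hT : nu v = TM v σ + TM v ρ := by
    rw [← TM_add, ← h_dec]
    exact nu_TM v
  have hTfin : IsFiniteMeasure (TM v ρ) := by
    apply isFiniteMeasure_of_le (nu v)
    conv_rhs => rw [hT]
    exact Measure.le_add_left le_rfl
  have h1 : volume.withDensity ((TM v ρ).rnDeriv volume) = TM v ρ :=
    Measure.withDensity_rnDeriv_eq _ _ (TM_ac v hρac)
  have h2 : TM v ρ = ρ := by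
    have h3 := Measure.eq_withDensity_rnDeriv (μ := nu v) (ν := volume) (s := TM v σ)
      (f := (TM v ρ).rnDeriv volume) (Measure.measurable_rnDeriv _ _) (TM_singular v hσs)
      (by rw [h1]; exact hT)
    rw [h1] at h3
    exact h3
  have hstep : ∀ ξ : ℝ, phi ρ ξ = symb v (ξ / 8) * phi ρ (ξ / 8) := by
    intro ξ
    conv_lhs => rw [← h2]
    exact phi_TM v ρ ξ
  have hq0 : (0 : ℝ) < 8 * k + 1 := by
    have : (0 : ℝ) ≤ k := by exact_mod_cast hk
    linarith
  set q : ℝ := 8 * k + 1 with hq
  have hA : ∀ n : ℕ, phi ρ (q * 8 ^ n) = phi ρ q := by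
    intro n
    induction n with
    | zero => rw [pow_zero, mul_one]
    | succ n ih =>
      rw [hstep, show q * 8 ^ (n + 1) / 8 = q * 8 ^ n by rw [pow_succ]; ring, ih, symb_one, one_mul]
      intro d
      refine ⟨8 ^ n * ((8 * k + 1) * (d.1 : ℕ) + (8 * m + 1) * (d.2 : ℕ)), ?_⟩
      unfold dig
      push_cast
      rw [← hv, hq]
      ring
  have hlim : Tendsto (fun n : ℕ => q * (8 : ℝ) ^ n) atTop atTop :=
    (tendsto_pow_atTop_atTop_of_one_lt (by norm_num)).const_mul_atTop hq0
  have hRL := phi_RL (f := f) hfm hlim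
  have hq1 : phi ρ q = 0 := by
    refine tendsto_nhds_unique ?_ hRL
    refine tendsto_const_nhds.congr ?_
    intro n
    exact (hA n).symm
  have hB : ∀ j : ℕ, phi ρ (q / 8 ^ j) = 0 := by
    intro j
    induction j with
    | zero => rw [pow_zero, div_one]; exact hq1
    | succ j ih =>
      rw [hstep, show q / 8 ^ j / 8 = q / 8 ^ (j + 1) by rw [pow_succ]; field_simp] at ih
      have h3 : symb v (q / 8 ^ (j + 1)) ≠ 0 := by
        apply symb_ne_zero
        · intro N
          have := not_int_aux (q := 8 * k + 1) (by omega) j N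
          push_cast at this
          exact this
        · intro N
          have := not_int_aux (q := 8 * m + 1) (by omega) j N
          push_cast at this
          rw [← mul_div_assoc, hv]
          exact this
      exact (mul_eq_zero.1 ih).resolve_left h3
  have hlim0 : Tendsto (fun j : ℕ => q / (8 : ℝ) ^ j) atTop (𝓝 0) := by
    have h3 : Tendsto (fun j : ℕ => q * (1 / 8 : ℝ) ^ j) atTop (𝓝 (q * 0)) :=
      (tendsto_pow_atTop_nhds_zero_of_lt_one (by norm_num) (by norm_num)).const_mul _
    rw [mul_zero] at h3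
    refine h3.congr ?_
    intro j
    rw [div_eq_mul_inv q, one_div, inv_pow]
  have hC : phi ρ 0 = 0 := by
    refine tendsto_nhds_unique (phi_tendsto ρ hlim0) ?_
    refine tendsto_const_nhds.congr ?_
    intro j
    exact (hB j).symm
  rw [phi_zero] at hC
  have hρ0 : ρ univ = 0 := by
    have h3 : (ρ univ).toReal = 0 := by exact_mod_cast hC
    rw [ENNReal.toReal_eq_zero_iff] at h3
    exact h3.resolve_right (measure_ne_top _ _)
  have hρ00 : ρ = 0 := Measure.measure_univ_eq_zero.1 hρ0
  rw [h_dec, hρ00, add_zero]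
  exact hσs

end Pool.Agent.Lib.MP_203158_an
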